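import Pool.Agent.H4.RCR.Quad

/-!
# Project RCR, module C1: collapse of a ring to a triangle
-/

namespace Pool.Agent.H3.RCR.RingC

open Relation Quad

/-- the state of the collapse: the positions in `E` are left -/
structure CInv (G : Finset Tri) {b : ℕ} (R : ZMod b → ℕ) (E : Finset (ZMod b)) (g : ℕ → ℕ) :
    Prop where
  off : ∀ x, (∀ i, x ≠ R i) → g x = x
  on : ∀ i ∈ E, g (R i) = R i
  con : ∀ i, i ∉ E → g (R i) = g (R (i + 1))
  val : ∀ i, ∃ j ∈ E, g (R i) = R j
  inj : ∀ t ∈ G, ∀ t' ∈ G, Nd (mapT g t) → mapT g t = mapT g t' → t = t'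
  adj : ∀ a b, Adj (quo g G) a b ↔ a ≠ b ∧ ∃ a' b', Adj G a' b' ∧ g a' = a ∧ g b' = b
  red : Red {x | ∃ i, x = R i} {x | ∃ i, x = R i} G (quo g G)
  sph : Sph (quo g G)

section

variable {G : Finset Tri} {b : ℕ} {R : ZMod b → ℕ} {E : Finset (ZMod b)} {g : ℕ → ℕ}

theorem orbit (hI : CInv G R E g) (hb : 3 ≤ b) (hR : Function.Injective R) (O : Finset (ZMod b))
    (hO : ∀ e ∈ O, e ∈ E) (hne : O.Nonempty) (hs : ∀ e ∈ O, ∃ e' ∈ O, g (R (e + 1)) = R e') :
    E ⊆ O := by
  have : NeZero b := ⟨by omega⟩
  obtain ⟨i0, h0⟩ := hne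
  have key : ∀ n : ℕ, ∃ e ∈ O, g (R (i0 + (n : ZMod b))) = R e := by
    intro n
    induction n with
    | zero => exact ⟨i0, h0, by simpa using hI.on i0 (hO i0 h0)⟩
    | succ n ih =>
      obtain ⟨e, he, hge⟩ := ih
      by_cases hi : i0 + (n : ZMod b) ∈ E
      · have h1 := hI.on _ hi
        rw [hge] at h1
        have h2 := hR h1
        obtain ⟨e', he', h3⟩ := hs e he
        refine ⟨e', he', ?_⟩
        rw [← h3, h2]
        congr 2
        push_cast
        ring
      · refine ⟨e, he, ?_⟩
        rw [← hge, hI.con _ hi]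
        congr 2
        push_cast
        ring
  intro e he
  obtain ⟨k, hk, h1⟩ := key (e - i0).val
  rw [ZMod.natCast_zmod_val, add_sub_cancel, hI.on e he] at h1
  rw [hR h1]
  exact hk

theorem card_le (hI : CInv G R E g) (hb : 3 ≤ b) (hR : Function.Injective R)
    (O : Finset (ZMod b)) (hO : ∀ e ∈ O, e ∈ E) (hne : O.Nonempty)
    (hs : ∀ e ∈ O, ∃ e' ∈ O, g (R (e + 1)) = R e') : E.card ≤ O.card :=
  Finset.card_le_card (orbit hI hb hR O hO hne hs)

theorem blk (hI : CInv G R E g) (hR : Function.Injective R) {i k : ZMod b}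
    (h : g (R i) = R k) : i = k ∨ g (R (i + 1)) = R k := by
  by_cases hi : i ∈ E
  · left
    rw [hI.on i hi] at h
    exact hR h
  · right
    rw [← hI.con i hi]
    exact h

theorem no1 (hI : CInv G R E g) (hb : 3 ≤ b) (hR : Function.Injective R) (hE : 4 ≤ E.card)
    {e : ZMod b} (he : e ∈ E) (h : g (R (e + 1)) = R e) : False := by
  have := card_le hI hb hR {e} (by simpa using he) ⟨e, by simp⟩ (by simpa using h)
  simp at this
  omega

theorem no2 (hI : CInv G R E g) (hb : 3 ≤ b) (hR : Function.Injective R) (hE : 4 ≤ E.card)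
    {e e' : ZMod b} (he : e ∈ E) (he' : e' ∈ E) (h : g (R (e + 1)) = R e')
    (h' : g (R (e' + 1)) = R e) : False := by
  have h1 := card_le hI hb hR {e, e'} (by simp [he, he']) ⟨e, by simp⟩ (by simp [h, h'])
  have h2 : ({e, e'} : Finset (ZMod b)).card ≤ 2 := Finset.card_le_two
  omega

theorem no3 (hI : CInv G R E g) (hb : 3 ≤ b) (hR : Function.Injective R) (hE : 4 ≤ E.card)
    {e e' f : ZMod b} (he : e ∈ E) (he' : e' ∈ E) (hf : f ∈ E) (h : g (R (e + 1)) = R e')
    (h' : g (R (e' + 1)) = R f) (h'' : g (R (f + 1)) = R e) : False := by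
  have h1 := card_le hI hb hR {e, e', f} (by simp [he, he', hf]) ⟨e, by simp⟩ (by simp [h, h', h''])
  have h2 : ({e, e', f} : Finset (ZMod b)).card ≤ 3 := Finset.card_le_three
  omega

theorem on_ring (hI : CInv G R E g) {x : ℕ} {e : ZMod b} (h : g x = R e) : ∃ i, x = R i := by
  by_contra hcon
  push Not at hcon
  rw [hI.off x hcon] at h
  exact hcon e h

theorem ok_step (hA21 : A21Stmt) (hI : CInv G R E g) (hG : Pre G) (hc : Cyc G R)
    (hch : ∀ i j, Adj G (R i) (R j) → j = i + 1 ∨ i = j + 1)
    (harc : ∀ w, (∀ i, w ≠ R i) → (∃ i, Adj G w (R i)) →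
      ∃ m, Adj G w (R m) ∧ ∀ i, Adj G w (R i) → i = m - 1 ∨ i = m ∨ i = m + 1)
    (htri : ∀ w i, (∀ j, w ≠ R j) → Adj G w (R i) → Adj G w (R (i + 1)) →
      (R i, R (i + 1), w) ∈ G ∨ (R (i + 1), R i, w) ∈ G)
    (hE : 4 ≤ E.card) {e e' : ZMod b} (he : e ∈ E) (he' : e' ∈ E) (hs : g (R (e + 1)) = R e') :
    Ok (quo g G) (R e) (R e') := by
  have hb := hc.three
  have hR := hc.inj
  have hne : e ≠ e' := by
    rintro rfl
    exact no1 hI hb hR hE he hs
  have hneR : R e ≠ R e' := fun h => hne (hR h)
  refine ⟨?_, ?_, ?_⟩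
  · rw [hI.adj]
    exact ⟨hneR, R e, R (e + 1), hc.adj e, hI.on e he, hs⟩
  · intro w h1 h2
    rw [hI.adj] at h1 h2
    obtain ⟨n1, a1, w1, h1, ha1, hw1⟩ := h1
    obtain ⟨n2, a2, w2, h2, ha2, hw2⟩ := h2
    obtain ⟨i, rfl⟩ := on_ring hI ha1
    obtain ⟨j, rfl⟩ := on_ring hI ha2
    by_cases hw : ∃ k, w = R k
    · exfalso
      obtain ⟨k, rfl⟩ := hw
      obtain ⟨p, rfl⟩ := on_ring hI hw1
      obtain ⟨q, rfl⟩ := on_ring hI hw2
      -- the class `k` follows `e` or precedes it
      have hkE : k ∈ E := by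
        obtain ⟨l, hl, h⟩ := hI.val p
        rw [hw1] at h
        rw [hR h]
        exact hl
      have c1 : k = e' ∨ g (R (k + 1)) = R e := by
        rcases hch i p h1 with rfl | rfl
        · left
          rcases blk hI hR ha1 with rfl | h
          · rw [hs] at hw1
            exact (hR hw1).symm
          · exact absurd (h.symm.trans hw1) n1
        · right
          rcases blk hI hR hw1 with rfl | h
          · exact ha1
          · exact absurd (ha1.symm.trans h) n1
      have c2 : g (R (e' + 1)) = R k ∨ g (R (k + 1)) = R e' := by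
        rcases hch j q h2 with rfl | rfl
        · left
          rcases blk hI hR ha2 with rfl | h
          · exact hw2
          · exact absurd (h.symm.trans hw2) n2
        · right
          rcases blk hI hR hw2 with rfl | h
          · exact ha2
          · exact absurd (ha2.symm.trans h) n2
      rcases c1 with rfl | c1
      · exact n2 rfl
      · rcases c2 with c2 | c2
        · exact no3 hI hb hR hE he he' hkE hs c2 c1
        · exact hneR (c1.symm.trans c2)
    · push Not at hw
      have hoff : ∀ x, g x = w → x = w := by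
        intro x hx
        by_cases hx' : ∃ k, x = R k
        · obtain ⟨k, rfl⟩ := hx'
          obtain ⟨l, -, hl⟩ := hI.val k
          exact absurd (hx.symm.trans hl) (hw l)
        · push Not at hx'
          rw [← hx]
          exact (hI.off x hx').symm
      have e1 := hoff _ hw1
      have e2 := hoff _ hw2
      rw [e1] at h1 hw1
      rw [e2] at h2
      clear hw2 e1 e2
      have h1' := hG.adj_symm h1
      have h2' := hG.adj_symm h2
      -- consecutive indices suffice
      have fin : ∀ k, Adj G w (R k) → Adj G w (R (k + 1)) → g (R k) = R e →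
          g (R (k + 1)) = R e' → (R e, R e', w) ∈ quo g G ∨ (R e', R e, w) ∈ quo g G := by
        intro k f1 f2 f3 f4
        have hke : k = e := by
          rcases blk hI hR f3 with h | h
          · exact h
          · exact absurd (h.symm.trans f4) hneR
        subst hke
        have nd1 : R k ≠ w := fun h => hw _ h.symm
        have nd2 : R e' ≠ w := fun h => hw _ h.symm
        rcases htri w k hw f1 f2 with h | h
        · left
          rw [mem_quo]
          refine ⟨⟨hneR, nd2, nd1.symm⟩, _, h, ?_⟩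
          simp only [mapT]
          rw [hI.on k he, f4, hw1]
        · right
          rw [mem_quo]
          refine ⟨⟨hneR.symm, nd1, nd2.symm⟩, _, h, ?_⟩
          simp only [mapT]
          rw [hI.on k he, f4, hw1]
      have bad : ∀ k, g (R k) = R e' → g (R (k + 1)) = R e → False := by
        intro k f1 f2
        rcases blk hI hR f1 with rfl | h
        · exact no2 hI hb hR hE he he' hs f2
        · exact hneR (f2.symm.trans h)
      obtain ⟨m, hm, harc'⟩ := harc w hw ⟨i, h1'⟩
      rcases harc' i h1' with hi | hi | hi <;> rcases harc' j h2' with hj | hj | hj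
      · exfalso
        rw [hi, ← hj, ha2] at ha1
        exact hneR ha1.symm
      · have hij : j = i + 1 := by rw [hi, hj]; ring
        subst hij
        exact fin i h1' h2' ha1 ha2
      · have him : m = i + 1 := by rw [hi]; ring
        subst him
        rcases blk hI hR ha1 with h | h
        · subst h
          exact fin i h1' hm ha1 hs
        · subst hj
          exact fin _ hm h2' h ha2
      · exfalso
        have hij : i = j + 1 := by rw [hi, hj]; ring
        subst hij
        exact bad _ ha2 ha1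
      · exfalso
        rw [hi, ← hj, ha2] at ha1
        exact hneR ha1.symm
      · have hij : j = i + 1 := by rw [hi, hj]
        subst hij
        exact fin i h1' h2' ha1 ha2
      · exfalso
        have hjm : m = j + 1 := by rw [hj]; ring
        subst hjm
        subst hi
        rcases blk hI hR ha2 with h | h
        · subst h
          obtain ⟨f, hf, h3⟩ := hI.val (j + 1)
          rcases blk hI hR h3 with h | h
          · rw [h] at ha1
            exact no3 hI hb hR hE he he' hf hs h3 ha1
          · have : f = e := hR (h.symm.trans ha1)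
            subst this
            exact no2 hI hb hR hE he he' hs h3
        · exact bad _ h ha1
      · exfalso
        have hij : i = j + 1 := by rw [hi, hj]
        subst hij
        exact bad _ ha2 ha1
      · exfalso
        rw [hi, ← hj, ha2] at ha1
        exact hneR ha1.symm
  · have h4 : 4 ≤ (verts (quo g G)).card := by
      have hsub : E.image R ⊆ verts (quo g G) := by
        intro x hx
        obtain ⟨k, hk, rfl⟩ := Finset.mem_image.mp hx
        obtain ⟨l, hl, h⟩ := hI.val (k + 1)
        have hkl : R k ≠ R l := by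
          intro e
          rw [← e] at h
          exact no1 hI hb hR hE hk h
        exact Pre.mem_left ((hI.adj _ _).mpr ⟨hkl, R k, R (k + 1), hc.adj k, hI.on k hk, h⟩)
      have := Finset.card_le_card hsub
      rw [Finset.card_image_of_injective _ hR] at this
      omega
    exact (hA21 _ hI.sph).1 h4 _ _

theorem sub1_inj {H : Finset Tri} (hH : Pre H) {u v : ℕ} {t t' : Tri} (ht : t ∈ H) (ht' : t' ∈ H)
    (hn : Nd (mapT (sub1 u v) t)) (he : mapT (sub1 u v) t = mapT (sub1 u v) t') : t = t' := by
  obtain ⟨a, b, c⟩ := t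
  obtain ⟨a', b', c'⟩ := t'
  simp only [mapT, Prod.mk.injEq] at he
  obtain ⟨e1, e2, e3⟩ := he
  obtain ⟨n1, n2, n3⟩ := hn
  simp only [mapT] at n1 n2 n3
  -- equality of images, one of them not `v`
  have key : ∀ x x', sub1 u v x = sub1 u v x' → sub1 u v x ≠ v → x = x' := by
    intro x x' h h'
    unfold sub1 at h h'
    split_ifs at h h' with h1 h2
    · exact absurd rfl h'
    · exact absurd rfl h'
    · exact absurd h h'
    · exact h
  by_cases ha : sub1 u v a = v
  · have hb : sub1 u v b ≠ v := fun h => n1 (ha.trans h.symm)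
    have hc : sub1 u v c ≠ v := fun h => n3 (h.trans ha.symm)
    have hbb := key _ _ e2 hb
    have hcc := key _ _ e3 hc
    subst hbb hcc
    have := hH.uniq' ht ht'
    subst this
    rfl
  · have haa := key _ _ e1 ha
    subst haa
    by_cases hb : sub1 u v b = v
    · have hc : sub1 u v c ≠ v := fun h => n2 (hb.trans h.symm)
      have hcc := key _ _ e3 hc
      subst hcc
      have := hH.uniq _ _ _ _ (hH.rot2 ht) (hH.rot2 ht')
      subst this
      rfl
    · have hbb := key _ _ e2 hb
      subst hbb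
      have := hH.uniq _ _ _ _ ht ht'
      subst this
      rfl

theorem nd_of_map {f : ℕ → ℕ} {t : Tri} (h : Nd (mapT f t)) : Nd t := by
  obtain ⟨h1, h2, h3⟩ := h
  exact ⟨fun e => h1 (congrArg f e), fun e => h2 (congrArg f e), fun e => h3 (congrArg f e)⟩

theorem step (hA1 : A1Stmt) (hA2 : A2Stmt) (hA21 : A21Stmt) (hI : CInv G R E g) (hG : Pre G)
    (hc : Cyc G R)
    (hch : ∀ i j, Adj G (R i) (R j) → j = i + 1 ∨ i = j + 1)
    (harc : ∀ w, (∀ i, w ≠ R i) → (∃ i, Adj G w (R i)) →
      ∃ m, Adj G w (R m) ∧ ∀ i, Adj G w (R i) → i = m - 1 ∨ i = m ∨ i = m + 1)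
    (htri : ∀ w i, (∀ j, w ≠ R j) → Adj G w (R i) → Adj G w (R (i + 1)) →
      (R i, R (i + 1), w) ∈ G ∨ (R (i + 1), R i, w) ∈ G)
    (hE : 4 ≤ E.card) {e : ZMod b} (he : e ∈ E) : ∃ g', CInv G R (E.erase e) g' := by
  have hb := hc.three
  have hR := hc.inj
  obtain ⟨e', he', hs⟩ := hI.val (e + 1)
  have hne : e ≠ e' := by
    rintro rfl
    exact no1 hI hb hR hE he hs
  have hneR : R e ≠ R e' := fun h => hne (hR h)
  have hok := ok_step hA21 hI hG hc hch harc htri hE he he' hs
  obtain ⟨-, -, -, hadj, -, -, -, -⟩ := hA1 _ _ _ hI.sph.toPre hok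
  have hq : quo (sub1 (R e) (R e') ∘ g) G = contr (quo g G) (R e) (R e') := by
    rw [contr, quo_quo]
  refine ⟨sub1 (R e) (R e') ∘ g, ?_, ?_, ?_, ?_, ?_, ?_, ?_, ?_⟩
  · intro x hx
    simp only [Function.comp_apply, hI.off x hx]
    unfold sub1
    rw [if_neg (hx e)]
  · intro i hi
    rw [Finset.mem_erase] at hi
    simp only [Function.comp_apply, hI.on i hi.2]
    unfold sub1
    rw [if_neg fun h => hi.1 (hR h)]
  · intro i hi
    simp only [Function.comp_apply]
    by_cases hie : i = e
    · subst hie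
      rw [hI.on i he, hs]
      unfold sub1
      rw [if_pos rfl, if_neg hneR.symm]
    · rw [hI.con i fun h => hi (Finset.mem_erase.mpr ⟨hie, h⟩)]
  · intro i
    obtain ⟨j, hj, h⟩ := hI.val i
    simp only [Function.comp_apply, h]
    by_cases hje : j = e
    · subst hje
      refine ⟨e', Finset.mem_erase.mpr ⟨hne.symm, he'⟩, ?_⟩
      unfold sub1
      rw [if_pos rfl]
    · refine ⟨j, Finset.mem_erase.mpr ⟨hje, hj⟩, ?_⟩
      unfold sub1
      rw [if_neg fun h => hje (hR h)]
  · intro t ht t' ht' hn h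
    have hn1 : Nd (mapT (sub1 (R e) (R e')) (mapT g t)) := hn
    have h1 : mapT (sub1 (R e) (R e')) (mapT g t) = mapT (sub1 (R e) (R e')) (mapT g t') := h
    have hn2 : Nd (mapT g t) := nd_of_map hn1
    have hn3 : Nd (mapT g t') := by
      rw [h1] at hn1
      exact nd_of_map hn1
    have m1 : mapT g t ∈ quo g G := mem_quo.mpr ⟨hn2, t, ht, rfl⟩
    have m2 : mapT g t' ∈ quo g G := mem_quo.mpr ⟨hn3, t', ht', rfl⟩
    exact hI.inj t ht t' ht' hn2 (sub1_inj hI.sph.toPre m1 m2 hn1 h1)
  · intro x y
    rw [hq, hadj]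
    constructor
    · rintro ⟨hxy, x', y', h1, h2, h3⟩
      obtain ⟨-, x'', y'', h4, rfl, rfl⟩ := (hI.adj _ _).mp h1
      exact ⟨hxy, x'', y'', h4, h2, h3⟩
    · rintro ⟨hxy, x'', y'', h4, h2, h3⟩
      refine ⟨hxy, g x'', g y'', (hI.adj _ _).mpr ⟨?_, x'', y'', h4, rfl, rfl⟩, h2, h3⟩
      intro h5
      apply hxy
      rw [← h2, ← h3]
      simp only [Function.comp_apply, h5]
  · rw [hq]
    exact hI.red.tail ⟨R e, R e', ⟨e, rfl⟩, ⟨e', rfl⟩, hok, rfl⟩
  · rw [hq]
    exact hA2 _ _ _ hI.sph hok

end

end Pool.Agent.H3.RCR.RingC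

namespace Pool.Agent.H3.RCR

open RingC

theorem c1_proof (hA1 : A1Stmt) (hA2 : A2Stmt) (hA21 : A21Stmt) : C1Stmt := by
  intro G b R E hG hc hch harc htri hE
  have hb := hc.three
  have : NeZero b := ⟨by omega⟩
  have hP := hG.toPre
  have hid : quo (fun x => x) G = G := by
    ext t
    rw [mem_quo]
    constructor
    · rintro ⟨-, t', ht', rfl⟩
      exact ht'
    · intro ht
      exact ⟨hP.nd ht, t, ht, rfl⟩
  have key : ∀ n : ℕ, n + 3 ≤ b → ∃ (E' : Finset (ZMod b)) (g : ℕ → ℕ), E ⊆ E' ∧
      E'.card + n = b ∧ CInv G R E' g := by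
    intro n
    induction n with
    | zero =>
      intro _
      refine ⟨Finset.univ, fun x => x, Finset.subset_univ _, ?_, ?_, ?_, ?_, ?_, ?_, ?_, ?_, ?_⟩
      · rw [Finset.card_univ, ZMod.card, add_zero]
      · intro x _; rfl
      · intro i _; rfl
      · intro i hi; exact absurd (Finset.mem_univ i) hi
      · intro i; exact ⟨i, Finset.mem_univ i, rfl⟩
      · intro t _ t' _ _ h; exact h
      · intro x y
        rw [hid]
        constructor
        · intro h; exact ⟨hP.adj_ne h, x, y, h, rfl, rfl⟩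
        · rintro ⟨-, x', y', h, rfl, rfl⟩; exact h
      · rw [hid]; exact Relation.ReflTransGen.refl
      · rw [hid]; exact hG
    | succ n ih =>
      intro hn
      obtain ⟨E', g, hEE, hcard, hI⟩ := ih (by omega)
      have h4 : 4 ≤ E'.card := by omega
      obtain ⟨e, he, heE⟩ : ∃ e ∈ E', e ∉ E := by
        by_contra hcon
        push Not at hcon
        have := Finset.card_le_card hcon
        omega
      obtain ⟨g', hI'⟩ := step hA1 hA2 hA21 hI hP hc hch harc htri h4 he
      refine ⟨E'.erase e, g', ?_, ?_, hI'⟩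
      · intro i hi
        exact Finset.mem_erase.mpr ⟨fun h => heE (h ▸ hi), hEE hi⟩
      · rw [Finset.card_erase_of_mem he]
        omega
  obtain ⟨E', g, hEE, hcard, hI⟩ := key (b - 3) (by omega)
  have hEq : E = E' := Finset.eq_of_subset_of_card_le hEE (by omega)
  subst hEq
  exact ⟨g, hI.off, hI.on, hI.con, hI.inj, hI.adj, hI.red⟩

end Pool.Agent.H3.RCR
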