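import Pool.Agent.H4.RCR.C2

/-!
# Project RCR, module C3: the rings satisfy the hypotheses of C1
-/

namespace Pool.Agent.H3.RCR.Quad

open Relation

section

variable {G D : Finset Tri} {b M : ℕ} {lam : ℕ → ZMod b → ℕ}
variable (hG : Pre G) (hb : 4 ≤ b) (hR : Rings G b M lam D)
include hG hb hR

theorem diag1 {j : ℕ} {i : ZMod b} {t : Tri} (hj : j < M) (ht : t ∈ G) (hq : isQ lam j i t)
    (h1 : isV (lam j (i + 1)) t) (h2 : isV (lam (j + 1) i) t) :
    (lam j i, lam j (i + 1), lam (j + 1) i) ∈ G ∧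
      (lam j (i + 1), lam (j + 1) (i + 1), lam (j + 1) i) ∈ G := by
  rcases isQ_G hG hb hR hj ht hq with ⟨e1, e2, -⟩ | ⟨e1, e2, h | h⟩
  · exact ⟨e1, e2⟩
  · exfalso
    have n1 := lev hR (show j + 1 ≤ M by omega) (show j ≤ M by omega) (by omega) i i
    have n2 := lev hR (show j + 1 ≤ M by omega) (show j ≤ M by omega) (by omega) i (i + 1)
    have n3 := idx_ne hb hR (show j + 1 ≤ M by omega) i
    rw [mem_rots] at h
    unfold isV at h2
    rcases h with rfl | rfl | rfl <;> rcases h2 with h2 | h2 | h2 <;>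
      first | exact n1 h2 | exact n2 h2 | exact n3 h2
  · exfalso
    have n1 := idx_ne hb hR (show j ≤ M by omega) i
    have n2 := lev hR (show j ≤ M by omega) (show j + 1 ≤ M by omega) (by omega) (i + 1) i
    have n3 := lev hR (show j ≤ M by omega) (show j + 1 ≤ M by omega) (by omega) (i + 1) (i + 1)
    rw [mem_rots] at h
    unfold isV at h1
    rcases h with rfl | rfl | rfl <;> rcases h1 with h1 | h1 | h1 <;>
      first | exact n1 h1.symm | exact n2 h1 | exact n3 h1

theorem diag2 {j : ℕ} {i : ZMod b} {t : Tri} (hj : j < M) (ht : t ∈ G) (hq : isQ lam j i t)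
    (h1 : isV (lam j i) t) (h2 : isV (lam (j + 1) (i + 1)) t) :
    (lam j i, lam j (i + 1), lam (j + 1) (i + 1)) ∈ G ∧
      (lam j i, lam (j + 1) (i + 1), lam (j + 1) i) ∈ G := by
  rcases isQ_G hG hb hR hj ht hq with ⟨e1, e2, h | h⟩ | ⟨e1, e2, -⟩
  · exfalso
    have n1 := lev hR (show j + 1 ≤ M by omega) (show j ≤ M by omega) (by omega) (i + 1) i
    have n2 := lev hR (show j + 1 ≤ M by omega) (show j ≤ M by omega) (by omega) (i + 1) (i + 1)
    have n3 := idx_ne hb hR (show j + 1 ≤ M by omega) i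
    rw [mem_rots] at h
    unfold isV at h2
    rcases h with rfl | rfl | rfl <;> rcases h2 with h2 | h2 | h2 <;>
      first | exact n1 h2 | exact n2 h2 | exact n3 h2.symm
  · exfalso
    have n1 := idx_ne hb hR (show j ≤ M by omega) i
    have n2 := lev hR (show j ≤ M by omega) (show j + 1 ≤ M by omega) (by omega) i i
    have n3 := lev hR (show j ≤ M by omega) (show j + 1 ≤ M by omega) (by omega) i (i + 1)
    rw [mem_rots] at h
    unfold isV at h1
    rcases h with rfl | rfl | rfl <;> rcases h1 with h1 | h1 | h1 <;>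
      first | exact n1 h1 | exact n2 h1 | exact n3 h1
  · exact ⟨e1, e2⟩

end

section

variable {G D : Finset Tri} {b M : ℕ} {lam : ℕ → ZMod b → ℕ}
variable (hG : Sph G) (hb : 4 ≤ b) (hR : Rings G b M lam D)
include hG hb hR

/-- a face at a ring vertex: its index and the index of the next corner -/
theorem nb {j : ℕ} (hj : j + 1 < M) {i : ZMod b} {w z : ℕ} (h : (lam (j + 1) i, w, z) ∈ G) :
    (∃ k, isQ lam j k (lam (j + 1) i, w, z) ∧ (i = k ∨ i = k + 1) ∧
      (w = lam j k ∨ w = lam j (k + 1) ∨ w = lam (j + 1) k ∨ w = lam (j + 1) (k + 1))) ∨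
    (∃ k, isQ lam (j + 1) k (lam (j + 1) i, w, z) ∧ (i = k ∨ i = k + 1) ∧
      (w = lam (j + 1) k ∨ w = lam (j + 1) (k + 1) ∨ w = lam (j + 2) k ∨
        w = lam (j + 2) (k + 1))) := by
  rcases faces_ring hG hb hR hj i _ _ h with ⟨k, hk⟩ | ⟨k, hk⟩
  · left
    refine ⟨k, hk, ?_, isQ_fst (isQ_rot hk)⟩
    rcases isQ_fst hk with e | e | e | e
    · exact absurd e (lev hR (by omega) (by omega) (by omega) _ _)
    · exact absurd e (lev hR (by omega) (by omega) (by omega) _ _)
    · exact Or.inl (idx hR (by omega) e)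
    · exact Or.inr (idx hR (by omega) e)
  · right
    refine ⟨k, hk, ?_, isQ_fst (isQ_rot hk)⟩
    rcases isQ_fst hk with e | e | e | e
    · exact Or.inl (idx hR (by omega) e)
    · exact Or.inr (idx hR (by omega) e)
    · exact absurd e (lev hR (by omega) (by omega) (by omega) _ _)
    · exact absurd e (lev hR (by omega) (by omega) (by omega) _ _)

theorem chordless {j : ℕ} (hj : j + 1 < M) {i i' : ZMod b}
    (h : Adj G (lam (j + 1) i) (lam (j + 1) i')) : i' = i + 1 ∨ i = i' + 1 := by
  have hne : i ≠ i' := fun e => hG.toPre.adj_ne h (by rw [e])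
  obtain ⟨z, hz⟩ := h
  rcases nb hG hb hR hj hz with ⟨k, -, h1, h2⟩ | ⟨k, -, h1, h2⟩
  · rcases h2 with e | e | e | e
    · exact absurd e (lev hR (by omega) (by omega) (by omega) _ _)
    · exact absurd e (lev hR (by omega) (by omega) (by omega) _ _)
    · have e := idx hR (by omega) e
      subst e
      rcases h1 with rfl | rfl
      · exact absurd rfl hne
      · exact Or.inr rfl
    · have e := idx hR (by omega) e
      subst e
      rcases h1 with rfl | rfl
      · exact Or.inl rfl
      · exact absurd rfl hne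
  · rcases h2 with e | e | e | e
    · have e := idx hR (by omega) e
      subst e
      rcases h1 with rfl | rfl
      · exact absurd rfl hne
      · exact Or.inr rfl
    · have e := idx hR (by omega) e
      subst e
      rcases h1 with rfl | rfl
      · exact Or.inl rfl
      · exact absurd rfl hne
    · exact absurd e (lev hR (by omega) (by omega) (by omega) _ _)
    · exact absurd e (lev hR (by omega) (by omega) (by omega) _ _)

/-- neighbours below and above -/
theorem nb_off {j : ℕ} (hj : j + 1 < M) {w : ℕ} (hw : ∀ i, w ≠ lam (j + 1) i) {i : ZMod b}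
    (h : Adj G w (lam (j + 1) i)) :
    (∃ m, w = lam j m ∧ ∃ k z, (m = k ∨ m = k + 1) ∧ (i = k ∨ i = k + 1) ∧
      (lam (j + 1) i, w, z) ∈ G ∧ isQ lam j k (lam (j + 1) i, w, z)) ∨
    (∃ m, w = lam (j + 2) m ∧ ∃ k z, (m = k ∨ m = k + 1) ∧ (i = k ∨ i = k + 1) ∧
      (lam (j + 1) i, w, z) ∈ G ∧ isQ lam (j + 1) k (lam (j + 1) i, w, z)) := by
  obtain ⟨z, hz⟩ := hG.toPre.adj_symm h
  rcases nb hG hb hR hj hz with ⟨k, hk, h1, e | e | e | e⟩ | ⟨k, hk, h1, e | e | e | e⟩
  · exact Or.inl ⟨_, e, k, z, Or.inl rfl, h1, hz, hk⟩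
  · exact Or.inl ⟨_, e, k, z, Or.inr rfl, h1, hz, hk⟩
  · exact absurd e (hw _)
  · exact absurd e (hw _)
  · exact absurd e (hw _)
  · exact absurd e (hw _)
  · exact Or.inr ⟨_, e, k, z, Or.inl rfl, h1, hz, hk⟩
  · exact Or.inr ⟨_, e, k, z, Or.inr rfl, h1, hz, hk⟩

omit hb hG in
theorem adj_up (hG : Pre G) {j : ℕ} (hj : j < M) (m : ZMod b) :
    Adj G (lam j m) (lam (j + 1) m) := by
  obtain ⟨z, hz, -⟩ := lf4 hG hR hj m
  exact hG.adj_symm ⟨z, hz⟩

theorem arc {j : ℕ} (hj : j + 1 < M) {w : ℕ} (hw : ∀ i, w ≠ lam (j + 1) i)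
    (hex : ∃ i, Adj G w (lam (j + 1) i)) :
    ∃ m, Adj G w (lam (j + 1) m) ∧
      ∀ i, Adj G w (lam (j + 1) i) → i = m - 1 ∨ i = m ∨ i = m + 1 := by
  obtain ⟨i0, h0⟩ := hex
  have key : ∀ m i k : ZMod b, (m = k ∨ m = k + 1) → (i = k ∨ i = k + 1) →
      i = m - 1 ∨ i = m ∨ i = m + 1 := by
    rintro m i k (rfl | rfl) (rfl | rfl) <;> simp
  rcases nb_off hG hb hR hj hw h0 with ⟨m, rfl, -⟩ | ⟨m, rfl, -⟩
  · refine ⟨m, adj_up hR hG.toPre (by omega) m, fun i hi => ?_⟩
    rcases nb_off hG hb hR hj hw hi with ⟨m', e, k, z, h1, h2, -⟩ | ⟨m', e, k, z, h1, h2, -⟩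
    · have e := idx hR (by omega) e
      subst e
      exact key _ _ _ h1 h2
    · exact absurd e (lev hR (by omega) (by omega) (by omega) _ _)
  · refine ⟨m, hG.toPre.adj_symm (adj_up hR hG.toPre (by omega) m), fun i hi => ?_⟩
    rcases nb_off hG hb hR hj hw hi with ⟨m', e, k, z, h1, h2, -⟩ | ⟨m', e, k, z, h1, h2, -⟩
    · exact absurd e (lev hR (by omega) (by omega) (by omega) _ _)
    · have e := idx hR (by omega) e
      subst e
      exact key _ _ _ h1 h2

theorem tri_face {j : ℕ} (hj : j + 1 < M) {w : ℕ} {i : ZMod b} (hw : ∀ i, w ≠ lam (j + 1) i)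
    (h1 : Adj G w (lam (j + 1) i)) (h2 : Adj G w (lam (j + 1) (i + 1))) :
    (lam (j + 1) i, lam (j + 1) (i + 1), w) ∈ G ∨ (lam (j + 1) (i + 1), lam (j + 1) i, w) ∈ G := by
  have hP := hG.toPre
  have o1 := one_ne (b := b) (by omega)
  have o2 := two_ne (b := b) (by omega)
  have o3 := three_ne (b := b) (by omega)
  -- the index of the second face
  have key : ∀ m k k' : ZMod b, (m = k ∨ m = k + 1) → (i = k ∨ i = k + 1) →
      (m = k' ∨ m = k' + 1) → (i + 1 = k' ∨ i + 1 = k' + 1) →
      (m = i ∧ k' = i) ∨ (m = i + 1 ∧ k = i) := by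
    intro m k k' g1 g2 g3 g4
    rcases g4 with g4 | g4
    · -- k' = i + 1
      rcases g3 with g3 | g3
      · right
        have hm : m = i + 1 := g3.trans g4.symm
        refine ⟨hm, ?_⟩
        rcases g2 with g2 | g2
        · exact g2.symm
        · exfalso
          rcases g1 with g1 | g1
          · apply o2
            linear_combination hm.symm.trans g1 - g2
          · apply o1
            linear_combination hm.symm.trans g1 - g2
      · exfalso
        have hm : m = i + 2 := by rw [g3, ← g4]; ring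
        rcases g1 with g1 | g1 <;> rcases g2 with g2 | g2
        · apply o2
          linear_combination hm.symm.trans g1 - g2
        · apply o3
          linear_combination hm.symm.trans g1 - g2
        · apply o1
          linear_combination hm.symm.trans g1 - g2
        · apply o2
          linear_combination hm.symm.trans g1 - g2
    · have hk : k' = i := (add_right_cancel g4).symm
      rw [hk] at g3
      rcases g3 with g3 | g3
      · exact Or.inl ⟨g3, hk⟩
      · right
        refine ⟨g3, ?_⟩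
        rcases g2 with g2 | g2
        · exact g2.symm
        · exfalso
          rcases g1 with g1 | g1
          · apply o2
            linear_combination g3.symm.trans g1 - g2
          · apply o1
            linear_combination g3.symm.trans g1 - g2
  rcases nb_off hG hb hR hj hw h1 with ⟨m, rfl, k, z, a1, a2, a3, a4⟩ |
    ⟨m, rfl, k, z, a1, a2, a3, a4⟩
  · rcases nb_off hG hb hR hj hw h2 with ⟨m', e, k', z', b1, b2, b3, b4⟩ | ⟨m', e, -⟩
    · have e := idx hR (by omega) e
      subst e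
      right
      rcases key m k k' a1 a2 b1 b2 with ⟨rfl, rfl⟩ | ⟨rfl, rfl⟩
      · obtain ⟨-, h⟩ := diag2 hP hb hR (by omega) b3 b4 (Or.inr (Or.inl rfl)) (Or.inl rfl)
        exact hP.rot _ _ _ h
      · obtain ⟨-, h⟩ := diag1 hP hb hR (by omega) a3 a4 (Or.inr (Or.inl rfl)) (Or.inl rfl)
        exact hP.rot _ _ _ h
    · exact absurd e (lev hR (by omega) (by omega) (by omega) _ _)
  · rcases nb_off hG hb hR hj hw h2 with ⟨m', e, -⟩ | ⟨m', e, k', z', b1, b2, b3, b4⟩
    · exact absurd e (lev hR (by omega) (by omega) (by omega) _ _)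
    · have e := idx hR (by omega) e
      subst e
      left
      rcases key m k k' a1 a2 b1 b2 with ⟨rfl, rfl⟩ | ⟨rfl, rfl⟩
      · exact (diag1 hP hb hR hj b3 b4 (Or.inl rfl) (Or.inr (Or.inl rfl))).1
      · exact (diag2 hP hb hR hj a3 a4 (Or.inl rfl) (Or.inr (Or.inl rfl))).1

end

end Pool.Agent.H3.RCR.Quad

namespace Pool.Agent.H3.RCR

open Quad

theorem c3_proof : C3Stmt := by
  intro G D b M L lam hG hb hR h1 hL
  obtain ⟨j, rfl⟩ : ∃ j, L = j + 1 := ⟨L - 1, by omega⟩
  exact ⟨cyc_ring hG.toPre hb hR (by omega), fun i i' h => chordless hG hb hR hL h,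
    fun w hw hex => arc hG hb hR hL hw hex, fun w i hw h2 h3 => tri_face hG hb hR hL hw h2 h3⟩

end Pool.Agent.H3.RCR
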