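import Pool.Agent.H4.RCR.C3

/-!
# Project RCR, module N1: the near part is a side of a 3-cycle
-/

namespace Pool.Agent.H3.RCR.Near

open Relation Quad

theorem back_ind {b : ℕ} (hb : 1 ≤ b) (P : ZMod b → Prop) (i0 : ZMod b) (h0 : P i0)
    (hs : ∀ i, P (i + 1) → P i) : ∀ i, P i := by
  have : NeZero b := ⟨by omega⟩
  have key : ∀ n : ℕ, P (i0 - (n : ZMod b)) := by
    intro n
    induction n with
    | zero => simpa using h0
    | succ n ih =>
      apply hs
      have e : i0 - ((n + 1 : ℕ) : ZMod b) + 1 = i0 - (n : ZMod b) := by push_cast; ring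
      rw [e]
      exact ih
  intro i
  have h1 := key (i0 - i).val
  rw [ZMod.natCast_zmod_val, sub_sub_cancel] at h1
  exact h1

theorem jump_rots {Y : Finset Tri} (hY : Pre Y) {o1 o2 o3 : ℕ} (hO : (o1, o2, o3) ∈ Y)
    (x y : ℕ) : Jump Y (rots (o1, o2, o3)) x y ↔
      (x = o1 ∧ y = o2) ∨ (x = o2 ∧ y = o3) ∨ (x = o3 ∧ y = o1) := by
  obtain ⟨n1, n2, n3⟩ := hY.nd hO
  have aux : ∀ {a b c : ℕ}, (a, b, c) ∈ Y → a ≠ b → b ≠ c → c ≠ a →
      Jump Y (rots (a, b, c)) a b := by
    intro a b c h m1 m2 m3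
    obtain ⟨d, hd⟩ := hY.opp _ _ _ h
    refine ⟨⟨c, self_mem_rots _⟩, d, hd, ?_⟩
    rw [mem_rots]
    simp only [Prod.mk.injEq, not_or, not_and]
    refine ⟨fun e => absurd e.symm m1, fun _ e => absurd e.symm m3, fun e => absurd e m2⟩
  constructor
  · rintro ⟨⟨c, hc⟩, -⟩
    rw [mem_rots] at hc
    simp only [Prod.mk.injEq] at hc
    rcases hc with ⟨h1, h2, -⟩ | ⟨h1, h2, -⟩ | ⟨h1, h2, -⟩
    · exact Or.inl ⟨h1, h2⟩
    · exact Or.inr (Or.inl ⟨h1, h2⟩)
    · exact Or.inr (Or.inr ⟨h1, h2⟩)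
  · have r1 : rots (o2, o3, o1) = rots (o1, o2, o3) := by
      ext t; simp only [mem_rots]; tauto
    have r2 : rots (o3, o1, o2) = rots (o1, o2, o3) := by
      ext t; simp only [mem_rots]; tauto
    rintro (⟨rfl, rfl⟩ | ⟨rfl, rfl⟩ | ⟨rfl, rfl⟩)
    · exact aux hO n1 n2 n3
    · rw [← r1]; exact aux (hY.rot _ _ _ hO) n2 n3 n1
    · rw [← r2]; exact aux (hY.rot2 hO) n3 n1 n2

section

variable {G D Y : Finset Tri} {b M L : ℕ} {lam : ℕ → ZMod b → ℕ} {o1 o2 o3 : ℕ}
  {w : ℕ → ZMod b → ℕ} {X : ℕ → Finset Tri} {g : ℕ → ℕ}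

/-- the jump positions and the collapse map -/
theorem near_basic (h : NearD G D Y b M L lam (o1, o2, o3) w X g) {i1 i2 i3 : ZMod b}
    (w1 : w L i1 = o1) (w2 : w L i2 = o2) (w3 : w L i3 = o3) (j1 : w L i1 ≠ w L (i1 + 1))
    (j2 : w L i2 ≠ w L (i2 + 1)) (j3 : w L i3 ≠ w L (i3 + 1)) :
    w L (i1 + 1) = o2 ∧ w L (i2 + 1) = o3 ∧ w L (i3 + 1) = o1 ∧
    (∀ i, w L i ≠ w L (i + 1) → i = i1 ∨ i = i2 ∨ i = i3) ∧
    ∀ i, (w L i = o1 ∧ g (lam L i) = lam L i1) ∨ (w L i = o2 ∧ g (lam L i) = lam L i2) ∨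
      (w L i = o3 ∧ g (lam L i) = lam L i3) := by
  have hY := h.sphY.toPre
  obtain ⟨n1, n2, n3⟩ := hY.nd h.OY
  have hJ := jump_rots hY h.OY
  have hlast := h.sweep.last
  have a1 : w L (i1 + 1) = o2 := by
    rcases hlast.step i1 with e | e
    · exact absurd e j1
    · rw [hJ, w1] at e
      rcases e with e | e | e
      · exact e.2
      · exact absurd e.1 n1
      · exact absurd e.1 n3.symm
  have a2 : w L (i2 + 1) = o3 := by
    rcases hlast.step i2 with e | e
    · exact absurd e j2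
    · rw [hJ, w2] at e
      rcases e with e | e | e
      · exact absurd e.1 n1.symm
      · exact e.2
      · exact absurd e.1 n2
  have a3 : w L (i3 + 1) = o1 := by
    rcases hlast.step i3 with e | e
    · exact absurd e j3
    · rw [hJ, w3] at e
      rcases e with e | e | e
      · exact absurd e.1 n3
      · exact absurd e.1 n2.symm
      · exact e.2
  have hcl : ∀ i, w L i ≠ w L (i + 1) → i = i1 ∨ i = i2 ∨ i = i3 := by
    intro i hi
    rcases hlast.step i with e | e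
    · exact absurd e hi
    · rw [hJ] at e
      rcases e with ⟨e1, e2⟩ | ⟨e1, e2⟩ | ⟨e1, e2⟩
      · exact Or.inl (hlast.uniq i i1 hi (e1.trans w1.symm) (e2.trans a1.symm))
      · exact Or.inr (Or.inl (hlast.uniq i i2 hi (e1.trans w2.symm) (e2.trans a2.symm)))
      · exact Or.inr (Or.inr (hlast.uniq i i3 hi (e1.trans w3.symm) (e2.trans a3.symm)))
  refine ⟨a1, a2, a3, hcl, ?_⟩
  refine back_ind (by have := h.four; omega) _ i1 (Or.inl ⟨w1, h.gjump i1 j1⟩) ?_
  intro i hi
  by_cases hw : w L i = w L (i + 1)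
  · rw [hw, h.gcon i hw]
    exact hi
  · rcases hcl i hw with rfl | rfl | rfl
    · exact Or.inl ⟨w1, h.gjump _ j1⟩
    · exact Or.inr (Or.inl ⟨w2, h.gjump _ j2⟩)
    · exact Or.inr (Or.inr ⟨w3, h.gjump _ j3⟩)

end

end Pool.Agent.H3.RCR.Near

namespace Pool.Agent.H3.RCR

open Quad Near

theorem n1_proof (hA7 : A7Stmt) : N1Stmt := by
  intro G D Y b M L lam O w X g h
  obtain ⟨o1, o2, o3⟩ := O
  have hY := h.sphY.toPre
  have hP := h.sphG.toPre
  have hb := h.four
  have hR := h.rings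
  obtain ⟨n1, n2, n3⟩ := hY.nd h.OY
  have hJ := jump_rots hY h.OY
  have hlast := h.sweep.last
  obtain ⟨l, rfl⟩ : ∃ l, L = l + 1 := ⟨L - 1, by have := h.one; omega⟩
  have hlM := h.lt
  obtain ⟨i1, w1, v1⟩ := hlast.all o1 o2 ((hJ _ _).mpr (Or.inl ⟨rfl, rfl⟩))
  obtain ⟨i2, w2, v2⟩ := hlast.all o2 o3 ((hJ _ _).mpr (Or.inr (Or.inl ⟨rfl, rfl⟩)))
  obtain ⟨i3, w3, v3⟩ := hlast.all o3 o1 ((hJ _ _).mpr (Or.inr (Or.inr ⟨rfl, rfl⟩)))
  have j1 : w (l + 1) i1 ≠ w (l + 1) (i1 + 1) := by rw [← w1, ← v1]; exact n1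
  have j2 : w (l + 1) i2 ≠ w (l + 1) (i2 + 1) := by rw [← w2, ← v2]; exact n2
  have j3 : w (l + 1) i3 ≠ w (l + 1) (i3 + 1) := by rw [← w3, ← v3]; exact n3
  obtain ⟨-, -, -, hcl, hP3⟩ := near_basic h w1.symm w2.symm w3.symm j1 j2 j3
  -- images of the ring
  have g1 := h.gjump i1 j1
  have g2 := h.gjump i2 j2
  have g3 := h.gjump i3 j3
  have hval : ∀ i, (∀ k, w (l + 1) i = o1 → k = i1 → g (lam (l + 1) i) = lam (l + 1) k) ∧
      (w (l + 1) i = o2 → g (lam (l + 1) i) = lam (l + 1) i2) ∧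
      (w (l + 1) i = o3 → g (lam (l + 1) i) = lam (l + 1) i3) := by
    intro i
    rcases hP3 i with ⟨e1, e2⟩ | ⟨e1, e2⟩ | ⟨e1, e2⟩
    · exact ⟨fun k _ hk => hk ▸ e2, fun e => absurd (e1.symm.trans e) n1,
        fun e => absurd (e1.symm.trans e) n3.symm⟩
    · exact ⟨fun k e _ => absurd (e1.symm.trans e) n1.symm, fun _ => e2,
        fun e => absurd (e1.symm.trans e) n2⟩
    · exact ⟨fun k e _ => absurd (e1.symm.trans e) n3, fun e => absurd (e1.symm.trans e) n2.symm,
        fun _ => e2⟩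
  have gs1 : g (lam (l + 1) (i1 + 1)) = lam (l + 1) i2 := (hval _).2.1 v1.symm
  have gs2 : g (lam (l + 1) (i2 + 1)) = lam (l + 1) i3 := (hval _).2.2 v2.symm
  have gs3 : g (lam (l + 1) (i3 + 1)) = lam (l + 1) i1 := (hval _).1 _ v3.symm rfl
  have i12 : i1 ≠ i2 := fun e => n1 (w1.trans (e ▸ w2.symm))
  have i23 : i2 ≠ i3 := fun e => n2 (w2.trans (e ▸ w3.symm))
  have i31 : i3 ≠ i1 := fun e => n3 (w3.trans (e ▸ w1.symm))
  have m12 : lam (l + 1) i1 ≠ lam (l + 1) i2 := fun e => i12 (idx hR (by omega) e)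
  have m23 : lam (l + 1) i2 ≠ lam (l + 1) i3 := fun e => i23 (idx hR (by omega) e)
  have m31 : lam (l + 1) i3 ≠ lam (l + 1) i1 := fun e => i31 (idx hR (by omega) e)
  have hcyc := cyc_ring hP hb hR (show l + 1 ≤ M by omega)
  have hside := side_Reg hP hb hR (show l + 1 ≤ M by omega)
  have hjump := jump_Reg hP hb hR (l + 1) (by omega)
  have hneg : Cyc G (fun i => lam (l + 1) (-i)) := by
    refine ⟨by omega, fun i j e => neg_injective (idx hR (by omega) e), fun i => ?_⟩
    have := hcyc.adj (-(i + 1))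
    rw [show -(i + 1) + 1 = -i by ring] at this
    exact hP.adj_symm this
  have hin := (hA7 G h.sphG b _ _ hneg hside).2.1
  -- vertices off the ring
  have goff : ∀ x i, g x = lam (l + 1) i → ∃ k, x = lam (l + 1) k := by
    intro x i hx
    by_contra hcon
    push Not at hcon
    rw [h.goff x hcon] at hx
    exact hcon i hx
  have gon : ∀ k x, g (lam (l + 1) k) = x → ∃ i, x = lam (l + 1) i := by
    intro k x hx
    rcases hP3 k with ⟨-, e⟩ | ⟨-, e⟩ | ⟨-, e⟩
    · exact ⟨_, hx.symm.trans e⟩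
    · exact ⟨_, hx.symm.trans e⟩
    · exact ⟨_, hx.symm.trans e⟩
  have goff' : ∀ x y, g x = y → (∀ i, y ≠ lam (l + 1) i) → x = y := by
    intro x y hx hy
    by_cases hx' : ∃ k, x = lam (l + 1) k
    · obtain ⟨k, rfl⟩ := hx'
      obtain ⟨i, hi⟩ := gon _ _ hx
      exact absurd hi (hy i)
    · push Not at hx'
      rw [← hx, h.goff x hx']
  refine ⟨i1, i2, i3, ?_, j1, j2, j3, ?_, ?_⟩
  · rw [← w1, ← w2, ← w3]
  · -- the general edge of the 3-cycle
    have hedge : ∀ p q : ZMod b, g (lam (l + 1) p) = lam (l + 1) p →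
        g (lam (l + 1) (p + 1)) = lam (l + 1) q → p ≠ q →
        Jump (quo g G) (quo g (Reg G D lam (l + 1))) (lam (l + 1) q) (lam (l + 1) p) := by
      intro p q e1 e2 hpq
      have hpq' : lam (l + 1) q ≠ lam (l + 1) p := fun e => hpq (idx hR (by omega) e).symm
      obtain ⟨⟨z, hz⟩, d, hd, hd'⟩ := (hjump _ _).mpr ⟨p, rfl, rfl⟩
      -- third vertices are off the ring
      have third : ∀ z, (lam (l + 1) (p + 1), lam (l + 1) p, z) ∈ G ∨
          (lam (l + 1) p, lam (l + 1) (p + 1), z) ∈ G → ∀ k, z ≠ lam (l + 1) k := by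
        intro z hz k hzk
        subst hzk
        have c1 : Adj G (lam (l + 1) p) (lam (l + 1) k) := by
          rcases hz with hz | hz
          · exact ⟨_, hP.rot _ _ _ hz⟩
          · exact hP.adj_symm ⟨_, hP.rot2 hz⟩
        have c2 : Adj G (lam (l + 1) (p + 1)) (lam (l + 1) k) := by
          rcases hz with hz | hz
          · exact hP.adj_symm ⟨_, hP.rot2 hz⟩
          · exact ⟨_, hP.rot _ _ _ hz⟩
        have o1 := one_ne (b := b) (by omega)
        have o2 := two_ne (b := b) (by omega)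
        have o3 := three_ne (b := b) (by omega)
        rcases chordless h.sphG hb hR hlM c1 with e | e <;>
          rcases chordless h.sphG hb hR hlM c2 with e' | e'
        · apply o1
          linear_combination e - e'
        · apply hP.adj_ne c2
          rw [e]
        · apply o3
          linear_combination -e - e'
        · apply o1
          linear_combination e' - e
      have hzo := third z (Or.inl (Reg_sub hR _ hz))
      have hdo := third d (Or.inr hd)
      have gz : g z = z := h.goff z hzo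
      have gd : g d = d := h.goff d hdo
      refine ⟨⟨z, ?_⟩, d, ?_, ?_⟩
      · rw [mem_quo]
        refine ⟨⟨hpq', (hzo p).symm, hzo q⟩, _, hz, ?_⟩
        simp only [mapT, e1, e2, gz]
      · rw [mem_quo]
        refine ⟨⟨hpq'.symm, (hdo q).symm, hdo p⟩, _, hd, ?_⟩
        simp only [mapT, e1, e2, gd]
      · intro hmem
        rw [mem_quo] at hmem
        obtain ⟨hn, t, ht, he⟩ := hmem
        have he' : mapT g (lam (l + 1) p, lam (l + 1) (p + 1), d) = mapT g t := by
          rw [he]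
          simp only [mapT, e1, e2, gd]
        have := h.ginj _ hd t (Reg_sub hR _ ht) (by rw [he', he]; exact hn) he'
        rw [← this] at ht
        exact hd' ht
    have E1 := hedge i3 i1 g3 gs3 i31
    have E2 := hedge i2 i3 g2 gs2 i23
    have E3 := hedge i1 i2 g1 gs1 i12
    have subq : quo g (Reg G D lam (l + 1)) ⊆ quo g G := by
      intro t ht
      rw [mem_quo] at ht ⊢
      obtain ⟨hn, t', ht', e⟩ := ht
      exact ⟨hn, t', Reg_sub hR _ ht', e⟩
    have adjq : ∀ {x y}, Jump (quo g G) (quo g (Reg G D lam (l + 1))) x y → Adj (quo g G) x y := by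
      rintro x y ⟨⟨z, hz⟩, -⟩
      exact ⟨z, subq hz⟩
    refine ⟨adjq E1, adjq E2, adjq E3, subq, ?_, ?_⟩
    · intro x y z hxyz
      rw [mem_quo] at hxyz ⊢
      obtain ⟨⟨c1, c2, c3⟩, ⟨x', y', z'⟩, ht', e⟩ := hxyz
      simp only [mapT, Prod.mk.injEq] at e
      obtain ⟨rfl, rfl, rfl⟩ := e
      exact ⟨⟨c2, c3, c1⟩, (y', z', x'), Reg_rot hP hR _ _ _ _ ht', rfl⟩
    · intro x y
      constructor
      · rintro ⟨⟨c, hc⟩, d, hd, hd'⟩
        rw [mem_quo] at hc hd
        obtain ⟨⟨nxy, -, -⟩, ⟨x0, y0, c0⟩, h0, e0⟩ := hc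
        obtain ⟨nd1, ⟨y1, x1, d1⟩, h1, e1⟩ := hd
        simp only [mapT, Prod.mk.injEq] at e0 e1
        obtain ⟨rfl, rfl, rfl⟩ := e0
        obtain ⟨ey, ex, rfl⟩ := e1
        -- the second face is not in the region
        have h1' : (y1, x1, d1) ∉ Reg G D lam (l + 1) := by
          intro hmem
          apply hd'
          rw [mem_quo]
          refine ⟨nd1, _, hmem, ?_⟩
          simp only [mapT, ex, ey]
        -- common vertices are on the ring
        have hcom : ∀ u u', g u = g u' → u ∈ verts (Reg G D lam (l + 1)) →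
            (∃ p q, (u', p, q) ∈ G ∧ (u', p, q) ∉ Reg G D lam (l + 1)) →
            ∃ k, u = lam (l + 1) k := by
          intro u u' huu hu hu'
          by_contra hcon
          push Not at hcon
          have hgu : g u = u := h.goff u hcon
          have hgu' : u' = u := goff' u' u (huu.symm.trans hgu) hcon
          subst hgu'
          obtain ⟨p, q, hpq, hpq'⟩ := hu'
          exact hpq' (hin u' hu (fun i => hcon (-i)) p q hpq)
        obtain ⟨s, rfl⟩ := hcom x0 x1 ex.symm (mem_verts.mpr ⟨_, _, h0⟩)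
          ⟨d1, y1, hP.rot _ _ _ h1, fun hm => h1' (Reg_rot hP hR _ _ _ _
            (Reg_rot hP hR _ _ _ _ hm))⟩
        obtain ⟨s', rfl⟩ := hcom y0 y1 ey.symm
          (mem_verts.mpr ⟨_, _, Reg_rot hP hR _ _ _ _ h0⟩) ⟨x1, d1, h1, h1'⟩
        have hadj : Adj G (lam (l + 1) s) (lam (l + 1) s') := ⟨_, Reg_sub hR _ h0⟩
        rcases chordless h.sphG hb hR hlM hadj with e | e
        · -- impossible orientation
          subst e
          exfalso
          obtain ⟨-, d2, hd2, hd2'⟩ := (hjump _ _).mpr ⟨s, rfl, rfl⟩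
          have := hP.uniq _ _ _ _ hd2 (Reg_sub hR _ h0)
          subst this
          exact hd2' h0
        · subst e
          have hjmp : w (l + 1) s' ≠ w (l + 1) (s' + 1) := by
            intro e
            exact nxy (h.gcon s' e).symm
          rcases hcl s' hjmp with rfl | rfl | rfl
          · right; right
            exact ⟨gs1, g1⟩
          · right; left
            exact ⟨gs2, g2⟩
          · left
            exact ⟨gs3, g3⟩
      · rintro (⟨rfl, rfl⟩ | ⟨rfl, rfl⟩ | ⟨rfl, rfl⟩)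
        · exact E1
        · exact E2
        · exact E3
  · intro t ht
    obtain ⟨x, y, z⟩ := t
    have hD := hR.side
    have hoff : ∀ v ∈ verts D, g v = v := by
      intro v hv
      apply h.goff
      rintro i rfl
      exact hR.new (l + 1) (by omega) (by omega) i hv
    have tG := hD.sub ht
    rw [mem_quo]
    refine ⟨hP.nd tG, _, mem_Reg.mpr (Or.inl ht), ?_⟩
    simp only [mapT]
    rw [hoff x (mem_verts.mpr ⟨_, _, ht⟩), hoff y (mem_verts.mpr ⟨_, _, hD.rot _ _ _ ht⟩),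
      hoff z (mem_verts.mpr ⟨_, _, hD.rot _ _ _ (hD.rot _ _ _ ht)⟩)]

end Pool.Agent.H3.RCR
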