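import Pool.Agent.H4.RCR.N1

/-!
# Project RCR, module N2: the map of the near part
-/

namespace Pool.Agent.H3.RCR.Near

open Relation Quad

/-! ### Rotations and maps -/

theorem map_rots {f : ℕ → ℕ} {s t : Tri} (h : t ∈ rots s) : mapT f t ∈ rots (mapT f s) := by
  rw [mem_rots] at h ⊢
  rcases h with rfl | rfl | rfl
  · exact Or.inl rfl
  · exact Or.inr (Or.inl rfl)
  · exact Or.inr (Or.inr rfl)

theorem exists_of_map_rots {f : ℕ → ℕ} {s r : Tri} (h : r ∈ rots (mapT f s)) :
    ∃ t ∈ rots s, mapT f t = r := by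
  rw [mem_rots] at h
  rcases h with rfl | rfl | rfl
  · exact ⟨(s.1, s.2.1, s.2.2), by simp [mem_rots], rfl⟩
  · exact ⟨(s.2.1, s.2.2, s.1), by simp [mem_rots], rfl⟩
  · exact ⟨(s.2.2, s.1, s.2.1), by simp [mem_rots], rfl⟩

theorem nd_rots {s t : Tri} (h : t ∈ rots s) (hn : Nd t) : Nd s := by
  obtain ⟨h1, h2, h3⟩ := hn
  rw [mem_rots] at h
  rcases h with rfl | rfl | rfl
  · exact ⟨h1, h2, h3⟩
  · exact ⟨h3, h1, h2⟩
  · exact ⟨h2, h3, h1⟩

theorem rots_inj {f : ℕ → ℕ} {s t t' : Tri} (h : t ∈ rots s) (h' : t' ∈ rots s)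
    (hn : Nd (mapT f t)) (he : mapT f t = mapT f t') : t = t' := by
  obtain ⟨n1, n2, n3⟩ := hn
  rw [mem_rots] at h h'
  obtain ⟨a, b, c⟩ := s
  rcases h with rfl | rfl | rfl <;> rcases h' with rfl | rfl | rfl <;>
    first
      | rfl
      | (exfalso
         simp only [mapT, Prod.mk.injEq] at he n1 n2 n3
         omega)

/-- two triangles with a common edge in opposite directions are different -/
theorem rots_ne {a b c q : ℕ} {r : Tri} (hn : Nd r) (h : r ∈ rots (a, b, q))
    (h' : r ∈ rots (b, c, q)) : False := by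
  obtain ⟨n1, n2, n3⟩ := hn
  rw [mem_rots] at h h'
  rcases h with rfl | rfl | rfl <;> simp only [Prod.mk.injEq] at h' n1 n2 n3 <;> omega

section

variable {G D Y : Finset Tri} {b M L : ℕ} {lam : ℕ → ZMod b → ℕ} {O : Tri}
  {w : ℕ → ZMod b → ℕ} {X : ℕ → Finset Tri} {g : ℕ → ℕ}

/-- the faces of the quadrilaterals of one level with a nondegenerate image -/
theorem quad_img (h : NearD G D Y b M L lam O w X g) {f : ℕ → ℕ}
    (hf : ∀ j ≤ L, ∀ i, f (lam j i) = w j i) {j : ℕ} (hj : j < L) {s : ZMod b} {q : ℕ}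
    (hw : w (j + 1) = Function.update (w j) s q) :
    ∃ t1 t2 : Tri, t1 ∈ G ∧ t2 ∈ G ∧ isQ lam j s t1 ∧ isQ lam j (s - 1) t2 ∧
      mapT f t1 = (w j s, w j (s + 1), q) ∧ mapT f t2 = (w j (s - 1), w j s, q) ∧
      ∀ i t, t ∈ G → isQ lam j i t → Nd (mapT f t) → t ∈ rots t1 ∨ t ∈ rots t2 := by
  have hG := h.sphG.toPre
  have hb := h.four
  have hR := h.rings
  have hjM : j < M := hj.trans h.lt
  have hs : w (j + 1) s = q := by rw [hw, Function.update_self]
  have hne : ∀ i, i ≠ s → w (j + 1) i = w j i := fun i hi => by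
    rw [hw, Function.update_of_ne hi]
  have hs1 : s + 1 ≠ s := succ_ne' (by omega) s
  have hs2 : s - 1 ≠ s := fun e => hs1 (by linear_combination -e)
  have f0 : ∀ i, f (lam j i) = w j i := hf j (by omega)
  have f1 : ∀ i, f (lam (j + 1) i) = w (j + 1) i := hf (j + 1) (by omega)
  -- the face at the slot
  obtain ⟨t1, ht1, hq1, hm1, hu1⟩ : ∃ t1 : Tri, t1 ∈ G ∧ isQ lam j s t1 ∧
      mapT f t1 = (w j s, w j (s + 1), q) ∧
      ∀ t ∈ G, isQ lam j s t → Nd (mapT f t) → t ∈ rots t1 := by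
    rcases hR.quad j hjM s with ⟨a1, a2⟩ | ⟨a1, a2⟩
    · refine ⟨_, a1, Or.inl (self_mem_rots _), ?_, ?_⟩
      · simp only [mapT, f0, f1, hs]
      · intro t ht hq hn
        rcases isQ_G hG hb hR hjM ht hq with ⟨-, -, hh | hh⟩ | ⟨c1, -, -⟩
        · exact hh
        · exfalso
          have h1 := nd_rots (map_rots hh) hn
          apply h1.1
          simp only [mapT, f0, f1, hne _ hs1]
        · exact absurd (hG.uniq _ _ _ _ a1 c1) (idx_ne hb hR (by omega) s)
    · refine ⟨_, a2, Or.inr (Or.inr (Or.inr (self_mem_rots _))), ?_, ?_⟩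
      · simp only [mapT, f0, f1, hs, hne _ hs1]
      · intro t ht hq hn
        rcases isQ_G hG hb hR hjM ht hq with ⟨c1, -, -⟩ | ⟨-, -, hh | hh⟩
        · exact absurd (hG.uniq _ _ _ _ c1 a1) (idx_ne hb hR (by omega) s)
        · exfalso
          have h1 := nd_rots (map_rots hh) hn
          apply h1.2.1
          simp only [mapT, f0, f1, hne _ hs1]
        · exact hh
  obtain ⟨t2, ht2, hq2, hm2, hu2⟩ : ∃ t2 : Tri, t2 ∈ G ∧ isQ lam j (s - 1) t2 ∧
      mapT f t2 = (w j (s - 1), w j s, q) ∧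
      ∀ t ∈ G, isQ lam j (s - 1) t → Nd (mapT f t) → t ∈ rots t2 := by
    have hquad := hR.quad j hjM (s - 1)
    rw [sub_add_cancel] at hquad
    rcases hquad with ⟨a1, a2⟩ | ⟨a1, a2⟩
    · refine ⟨_, hG.rot2 a2, Or.inr (Or.inl (by simp [mem_rots])), ?_, ?_⟩
      · simp only [mapT, f0, f1, hs, hne _ hs2]
      · intro t ht hq hn
        have hqg := isQ_G hG hb hR hjM ht hq
        rw [sub_add_cancel] at hqg
        rcases hqg with ⟨-, -, hh | hh⟩ | ⟨c1, -, -⟩
        · exfalso
          have h1 := nd_rots (map_rots hh) hn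
          apply h1.2.2
          simp only [mapT, f0, f1, hne _ hs2]
        · rw [mem_rots] at hh ⊢
          rcases hh with rfl | rfl | rfl <;> simp
        · have := idx_ne hb hR (show j + 1 ≤ M by omega) (s - 1)
          rw [sub_add_cancel] at this
          exact absurd (hG.uniq _ _ _ _ a1 c1) this
    · refine ⟨_, a1, Or.inr (Or.inr (Or.inl ?_)), ?_, ?_⟩
      · rw [sub_add_cancel]
        exact self_mem_rots _
      · simp only [mapT, f0, f1, hs]
      · intro t ht hq hn
        have hqg := isQ_G hG hb hR hjM ht hq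
        rw [sub_add_cancel] at hqg
        rcases hqg with ⟨c1, -, -⟩ | ⟨-, -, hh | hh⟩
        · have := idx_ne hb hR (show j + 1 ≤ M by omega) (s - 1)
          rw [sub_add_cancel] at this
          exact absurd (hG.uniq _ _ _ _ c1 a1) this
        · exact hh
        · exfalso
          have h1 := nd_rots (map_rots hh) hn
          apply h1.2.2
          simp only [mapT, f0, f1, hne _ hs2]
  refine ⟨t1, t2, ht1, ht2, hq1, hq2, hm1, hm2, ?_⟩
  intro i t ht hq hn
  by_cases hi : i = s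
  · subst hi
    exact Or.inl (hu1 t ht hq hn)
  by_cases hi' : i = s - 1
  · subst hi'
    exact Or.inr (hu2 t ht hq hn)
  exfalso
  have hi2 : i + 1 ≠ s := fun e => hi' (by rw [← e]; ring)
  have e1 := hne _ hi
  have e2 := hne _ hi2
  rcases isQ_G hG hb hR hjM ht hq with ⟨-, -, hh | hh⟩ | ⟨-, -, hh | hh⟩
  · have h1 := nd_rots (map_rots hh) hn
    apply h1.2.2
    simp only [mapT, f0, f1, e1]
  · have h1 := nd_rots (map_rots hh) hn
    apply h1.1
    simp only [mapT, f0, f1, e2]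
  · have h1 := nd_rots (map_rots hh) hn
    apply h1.2.1
    simp only [mapT, f0, f1, e2]
  · have h1 := nd_rots (map_rots hh) hn
    apply h1.2.2
    simp only [mapT, f0, f1, e1]

/-- consequences of `quad_img` -/
theorem quad_facts (h : NearD G D Y b M L lam O w X g) {f : ℕ → ℕ}
    (hf : ∀ j ≤ L, ∀ i, f (lam j i) = w j i) {j : ℕ} (hj : j < L) :
    (∀ i t, t ∈ G → isQ lam j i t → Nd (mapT f t) → mapT f t ∈ X j ∧ mapT f t ∈ Y) ∧
    (∀ i t i' t', t ∈ G → isQ lam j i t → t' ∈ G → isQ lam j i' t' → Nd (mapT f t) →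
      mapT f t = mapT f t' → t = t') ∧
    (∀ r ∈ X j, ∃ i t, t ∈ G ∧ isQ lam j i t ∧ mapT f t = r) ∧
    (∀ i t, t ∈ G → isQ lam j i t → f t.1 = f t.2.1 ∨ Adj Y (f t.1) (f t.2.1)) := by
  have hY := h.sphY.toPre
  have hG := h.sphG.toPre
  have hb := h.four
  obtain ⟨s, q, hw, hwq, hn2, hn1, hX⟩ := h.sweep.move j hj
  obtain ⟨t1, t2, ht1, ht2, hq1, hq2, hm1, hm2, hu⟩ := quad_img h hf hj hw
  refine ⟨?_, ?_, ?_, ?_⟩
  · intro i t ht hq hn
    rcases hu i t ht hq hn with hh | hh
    · have h1 := map_rots (f := f) hh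
      rw [hm1] at h1
      have h2 := nd_rots h1 hn
      refine ⟨?_, mem_of_rots hY.rot h1 (hn1 h2)⟩
      rw [hX, Finset.mem_union]
      right
      rw [crs, if_pos h2]
      exact h1
    · have h1 := map_rots (f := f) hh
      rw [hm2] at h1
      have h2 := nd_rots h1 hn
      refine ⟨?_, mem_of_rots hY.rot h1 (hn2 h2)⟩
      rw [hX, Finset.mem_union]
      left
      rw [crs, if_pos h2]
      exact h1
  · intro i t i' t' ht hq ht' hq' hn he
    have hn' : Nd (mapT f t') := he ▸ hn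
    rcases hu i t ht hq hn with hh | hh <;> rcases hu i' t' ht' hq' hn' with hh' | hh'
    · exact rots_inj hh hh' hn he
    · exfalso
      have h1 := map_rots (f := f) hh
      have h2 := map_rots (f := f) hh'
      rw [hm1] at h1
      rw [← he, hm2] at h2
      exact rots_ne hn h2 h1
    · exfalso
      have h1 := map_rots (f := f) hh
      have h2 := map_rots (f := f) hh'
      rw [hm2] at h1
      rw [← he, hm1] at h2
      exact rots_ne hn h1 h2
    · exact rots_inj hh hh' hn he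
  · intro r hr
    rw [hX, Finset.mem_union] at hr
    rcases hr with hr | hr
    · unfold crs at hr
      split_ifs at hr with hnd
      · rw [← hm2] at hr
        obtain ⟨t, ht, e⟩ := exists_of_map_rots hr
        exact ⟨s - 1, t, mem_of_rots hG.rot ht ht2, isQ_rots hq2 ht, e⟩
      · simp at hr
    · unfold crs at hr
      split_ifs at hr with hnd
      · rw [← hm1] at hr
        obtain ⟨t, ht, e⟩ := exists_of_map_rots hr
        exact ⟨s, t, mem_of_rots hG.rot ht ht1, isQ_rots hq1 ht, e⟩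
      · simp at hr
  · intro i t ht hq
    obtain ⟨x, y, z⟩ := t
    have f0 : ∀ i, f (lam j i) = w j i := hf j (by omega)
    have f1 : ∀ i, f (lam (j + 1) i) = w (j + 1) i := hf (j + 1) (by omega)
    have hs : w (j + 1) s = q := by rw [hw, Function.update_self]
    have hne : ∀ i, i ≠ s → w (j + 1) i = w j i := fun i hi => by
      rw [hw, Function.update_of_ne hi]
    let Ee : ℕ → ℕ → Prop := fun x y => f x = f y ∨ Adj Y (f x) (f y)
    have esymm : ∀ {x y}, Ee x y → Ee y x := by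
      rintro x y (e | e)
      · exact Or.inl e.symm
      · exact Or.inr (hY.adj_symm e)
    have eaa : Ee (lam j i) (lam j (i + 1)) := by
      have := h.sweep.adj j (by omega) i
      simp only [Ee, f0]
      exact this
    have ecc : Ee (lam (j + 1) i) (lam (j + 1) (i + 1)) := by
      have := h.sweep.adj (j + 1) (by omega) i
      simp only [Ee, f1]
      exact this
    have evert : ∀ i, Ee (lam j i) (lam (j + 1) i) := by
      intro i
      simp only [Ee, f0, f1]
      by_cases hi : i = s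
      · subst hi
        rw [hs]
        exact hwq
      · left
        rw [hne i hi]
    have ed1 : Ee (lam j (i + 1)) (lam (j + 1) i) := by
      by_cases hi : i = s
      · subst hi
        have hs1 : i + 1 ≠ i := succ_ne' (by omega) i
        have h1 := esymm ecc
        simp only [Ee, f0, f1, hne _ hs1] at h1 ⊢
        exact h1
      · have h1 := esymm eaa
        simp only [Ee, f0, f1, hne _ hi] at h1 ⊢
        exact h1
    have ed2 : Ee (lam j i) (lam (j + 1) (i + 1)) := by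
      by_cases hi : i + 1 = s
      · have hi' : i ≠ s := by
          rw [← hi]
          exact ne_succ (by omega) i
        have h1 := ecc
        simp only [Ee, f0, f1, hne _ hi'] at h1 ⊢
        exact h1
      · have h1 := eaa
        simp only [Ee, f0, f1, hne _ hi] at h1 ⊢
        exact h1
    have hx := isQ_fst hq
    have hy := isQ_fst (isQ_rot hq)
    show Ee x y
    have erefl : ∀ x, Ee x x := fun x => Or.inl rfl
    rcases hx with rfl | rfl | rfl | rfl <;> rcases hy with rfl | rfl | rfl | rfl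
    · exact erefl _
    · exact eaa
    · exact evert _
    · exact ed2
    · exact esymm eaa
    · exact erefl _
    · exact ed1
    · exact evert _
    · exact esymm (evert _)
    · exact esymm ed1
    · exact erefl _
    · exact ecc
    · exact esymm ed2
    · exact esymm (evert _)
    · exact esymm ecc
    · exact erefl _

end

end Pool.Agent.H3.RCR.Near

namespace Pool.Agent.H3.RCR

open Quad Near

open Classical in
theorem n2_proof : N2Stmt := by
  intro G D Y b M L lam O w X g h i1 i2 i3 hO j1 j2 j3 _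
  obtain ⟨o1, o2, o3⟩ := O
  simp only [Prod.mk.injEq] at hO
  obtain ⟨w1, w2, w3⟩ := hO
  have hY := h.sphY.toPre
  have hG := h.sphG.toPre
  have hb := h.four
  have hR := h.rings
  obtain ⟨-, -, -, -, hP3⟩ := near_basic h w1 w2 w3 j1 j2 j3
  have hOnd : Nd (o1, o2, o3) := hY.nd h.OY
  have hL1 := h.one
  have hLM := h.lt
  -- the map
  let f : ℕ → ℕ := fun x => if x ∈ verts D then x else
    if hx : ∃ ji : ℕ × ZMod b, 1 ≤ ji.1 ∧ ji.1 ≤ L ∧ x = lam ji.1 ji.2 then
      w hx.choose.1 hx.choose.2 else x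
  have fD : ∀ v ∈ verts D, f v = v := fun v hv => by simp only [f, if_pos hv]
  have fl : ∀ j, 1 ≤ j → j ≤ L → ∀ i, f (lam j i) = w j i := by
    intro j hj hjL i
    have hnD : lam j i ∉ verts D := hR.new j hj (by omega) i
    have hx : ∃ ji : ℕ × ZMod b, 1 ≤ ji.1 ∧ ji.1 ≤ L ∧ lam j i = lam ji.1 ji.2 :=
      ⟨(j, i), hj, hjL, rfl⟩
    simp only [f, if_neg hnD, dif_pos hx]
    obtain ⟨c1, c2, c3⟩ := hx.choose_spec
    obtain ⟨e1, e2⟩ := hR.inj j (by omega) hx.choose.1 (by omega) i hx.choose.2 c3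
    rw [← e1, ← e2]
  have hv0 : ∀ i, lam 0 i ∈ verts D := by
    intro i
    have hjump := jump_Reg hG hb hR 0 (by omega)
    have h0 : Reg G D lam 0 = D := by
      ext t
      rw [mem_Reg]
      simp
    rw [h0] at hjump
    obtain ⟨⟨z, hz⟩, -⟩ := (hjump _ _).mpr ⟨i, rfl, rfl⟩
    exact mem_verts.mpr ⟨_, _, hR.side.rot _ _ _ hz⟩
  have hf : ∀ j ≤ L, ∀ i, f (lam j i) = w j i := by
    intro j hj i
    rcases Nat.eq_zero_or_pos j with rfl | hj0
    · rw [fD _ (hv0 i), h.sweep.zero]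
    · exact fl j hj0 hj i
  -- `f` does not see the collapse
  have fg : ∀ x, f (g x) = f x := by
    intro x
    by_cases hx : ∃ i, x = lam L i
    · obtain ⟨i, rfl⟩ := hx
      rcases hP3 i with ⟨e1, e2⟩ | ⟨e1, e2⟩ | ⟨e1, e2⟩
      · rw [e2, hf L le_rfl, hf L le_rfl, e1, w1]
      · rw [e2, hf L le_rfl, hf L le_rfl, e1, w2]
      · rw [e2, hf L le_rfl, hf L le_rfl, e1, w3]
    · push Not at hx
      rw [h.goff x hx]
  have fgT : ∀ t, mapT f (mapT g t) = mapT f t := by
    intro t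
    simp only [mapT, fg]
  have gD : ∀ t ∈ D, mapT g t = t := by
    rintro ⟨x, y, z⟩ ht
    have hD := hR.side
    have hoff : ∀ v ∈ verts D, g v = v := by
      intro v hv
      apply h.goff
      rintro i rfl
      exact hR.new L (by omega) (by omega) i hv
    simp only [mapT]
    rw [hoff x (mem_verts.mpr ⟨_, _, ht⟩), hoff y (mem_verts.mpr ⟨_, _, hD.rot _ _ _ ht⟩),
      hoff z (mem_verts.mpr ⟨_, _, hD.rot _ _ _ (hD.rot _ _ _ ht)⟩)]
  have fDT : ∀ t ∈ D, mapT f t = t := by
    rintro ⟨x, y, z⟩ ht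
    have hD := hR.side
    simp only [mapT]
    rw [fD x (mem_verts.mpr ⟨_, _, ht⟩), fD y (mem_verts.mpr ⟨_, _, hD.rot _ _ _ ht⟩),
      fD z (mem_verts.mpr ⟨_, _, hD.rot _ _ _ (hD.rot _ _ _ ht)⟩)]
  have hcap : mapT f (lam L i1, lam L i2, lam L i3) = (o1, o2, o3) := by
    simp only [mapT, hf L le_rfl, w1, w2, w3]
  have hDrot : RotC D := hR.side.rot
  -- classification
  have cls : ∀ t ∈ quo g (Reg G D lam L) ∪ rots (lam L i1, lam L i2, lam L i3),
      (t ∈ rots (lam L i1, lam L i2, lam L i3) ∧ mapT f t ∈ rots (o1, o2, o3)) ∨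
      (t ∈ D ∧ mapT f t = t) ∨
      ∃ j < L, ∃ i, ∃ t0 ∈ G, isQ lam j i t0 ∧ t = mapT g t0 ∧ mapT f t = mapT f t0 := by
    intro t ht
    rw [Finset.mem_union] at ht
    rcases ht with ht | ht
    · rw [mem_quo] at ht
      obtain ⟨-, t0, ht0, rfl⟩ := ht
      rcases mem_Reg.mp ht0 with h0 | ⟨h0, j, hj, i, hi⟩
      · right; left
        rw [gD t0 h0]
        exact ⟨h0, fDT t0 h0⟩
      · right; right
        exact ⟨j, hj, i, t0, h0, hi, rfl, fgT t0⟩
    · left
      refine ⟨ht, ?_⟩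
      have := map_rots (f := f) ht
      rw [hcap] at this
      exact this
  have ndY : ∀ t : Tri, t ∈ Y → Nd t := by
    rintro ⟨x, y, z⟩ ht
    exact hY.nd ht
  refine ⟨f, fD, fl, ?_, ?_, ?_, ?_⟩
  · rintro x y ⟨z, hz⟩
    rcases cls _ hz with ⟨-, h1⟩ | ⟨h1, h2⟩ | ⟨j, hj, i, t0, h1, h2, h3, -⟩
    · right
      have := mem_of_rots hY.rot h1 h.OY
      exact ⟨_, this⟩
    · right
      simp only [mapT, Prod.mk.injEq] at h2
      rw [h2.1, h2.2.1]
      exact ⟨z, h.DY h1⟩
    · have h4 := (quad_facts h hf hj).2.2.2 i t0 h1 h2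
      obtain ⟨x0, y0, z0⟩ := t0
      simp only [mapT, Prod.mk.injEq] at h3 h4
      obtain ⟨rfl, rfl, rfl⟩ := h3
      rw [fg, fg]
      exact h4
  · intro t ht hn
    rcases cls _ ht with ⟨-, h1⟩ | ⟨h1, h2⟩ | ⟨j, hj, i, t0, h1, h2, -, h4⟩
    · exact mem_of_rots hY.rot h1 h.OY
    · rw [h2]
      exact h.DY h1
    · rw [h4] at hn ⊢
      exact ((quad_facts h hf hj).1 i t0 h1 h2 hn).2
  · intro r hr
    have lift : ∀ t0 ∈ Reg G D lam L, mapT f t0 = r →
        ∃ t ∈ quo g (Reg G D lam L) ∪ rots (lam L i1, lam L i2, lam L i3), mapT f t = r := by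
      intro t0 ht0 he
      refine ⟨mapT g t0, ?_, ?_⟩
      · rw [Finset.mem_union]
        left
        rw [mem_quo]
        refine ⟨?_, t0, ht0, rfl⟩
        have h1 : Nd (mapT f (mapT g t0)) := by
          rw [fgT, he]
          exact ndY r hr
        obtain ⟨c1, c2, c3⟩ := h1
        exact ⟨fun e => c1 (congrArg f e), fun e => c2 (congrArg f e), fun e => c3 (congrArg f e)⟩
      · rw [fgT, he]
    by_cases hrD : r ∈ D
    · exact lift r (mem_Reg.mpr (Or.inl hrD)) (fDT r hrD)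
    by_cases hrO : r ∈ rots (o1, o2, o3)
    · rw [← hcap] at hrO
      obtain ⟨t, ht, e⟩ := exists_of_map_rots hrO
      exact ⟨t, Finset.mem_union_right _ ht, e⟩
    obtain ⟨j, hj, hrX⟩ := (h.sweep.cover r).mpr ⟨Finset.mem_sdiff.mpr ⟨hr, hrD⟩, hrO⟩
    obtain ⟨i, t, ht, hq, e⟩ := (quad_facts h hf hj).2.2.1 r hrX
    exact lift t (mem_Reg.mpr (Or.inr ⟨ht, j, hj, i, hq⟩)) e
  · intro t ht t' ht' hm he
    have hn : Nd (mapT f t) := ndY _ hm
    have hn' : Nd (mapT f t') := he ▸ hn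
    have hOD : ∀ r, r ∈ rots (o1, o2, o3) → r ∈ D → False := fun r h1 h2 =>
      h.OD (mem_of_rots' hDrot h1 h2)
    have hXc : ∀ r j, j < L → r ∈ X j → r ∉ D ∧ r ∉ rots (o1, o2, o3) := by
      intro r j hj hr
      obtain ⟨c1, c2⟩ := (h.sweep.cover r).mp ⟨j, hj, hr⟩
      exact ⟨(Finset.mem_sdiff.mp c1).2, c2⟩
    rcases cls _ ht with ⟨a1, a2⟩ | ⟨a1, a2⟩ | ⟨j, hj, i, t0, a1, a2, a3, a4⟩ <;>
      rcases cls _ ht' with ⟨b1, b2⟩ | ⟨b1, b2⟩ | ⟨j', hj', i', t0', b1, b2, b3, b4⟩
    · exact rots_inj a1 b1 hn he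
    · exfalso
      rw [he, b2] at a2
      exact hOD _ a2 b1
    · exfalso
      rw [b4] at hn'
      have h1 := ((quad_facts h hf hj').1 i' t0' b1 b2 hn').1
      rw [← b4, ← he] at h1
      exact (hXc _ _ hj' h1).2 a2
    · exfalso
      rw [← he, a2] at b2
      exact hOD _ b2 a1
    · rw [← a2, he, b2]
    · exfalso
      rw [b4] at hn'
      have h1 := ((quad_facts h hf hj').1 i' t0' b1 b2 hn').1
      rw [← b4, ← he, a2] at h1
      exact (hXc _ _ hj' h1).1 a1
    · exfalso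
      rw [a4] at hn
      have h1 := ((quad_facts h hf hj).1 i t0 a1 a2 hn).1
      rw [← a4, he] at h1
      exact (hXc _ _ hj h1).2 b2
    · exfalso
      rw [a4] at hn
      have h1 := ((quad_facts h hf hj).1 i t0 a1 a2 hn).1
      rw [← a4, he, b2] at h1
      exact (hXc _ _ hj h1).1 b1
    · rw [a4] at hn
      rw [b4] at hn'
      have h1 := ((quad_facts h hf hj).1 i t0 a1 a2 hn).1
      have h2 := ((quad_facts h hf hj').1 i' t0' b1 b2 hn').1
      rw [← b4, ← he, a4] at h2
      have hjj : j = j' := by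
        by_contra hne
        exact Finset.disjoint_left.mp (h.sweep.disj j hj j' hj' hne) h1 h2
      subst hjj
      have h3 := (quad_facts h hf hj).2.1 i t0 i' t0' a1 a2 b1 b2 hn (by rw [← a4, he, b4])
      rw [a3, b3, h3]

end Pool.Agent.H3.RCR
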