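import Pool.Agent.H4.RCR.Quad

/-!
# Project RCR, module C2: the discs bounded by rings; the faces at ring vertices
-/

namespace Pool.Agent.H3.RCR.Quad

open Relation

section

variable {G D : Finset Tri} {b M : ℕ} {lam : ℕ → ZMod b → ℕ}
variable (hG : Pre G) (hb : 4 ≤ b) (hR : Rings G b M lam D)
include hG hb hR

theorem side_Reg {L : ℕ} (hL : L ≤ M) : Side G (fun i => lam L (-i)) (Reg G D lam L) where
  sub := Reg_sub hR L
  rot := Reg_rot hG hR L
  jump := fun x y => (jump_Reg hG hb hR L hL x y).trans jump_conv.symm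

theorem cyc_ring {L : ℕ} (hL : L ≤ M) : Cyc G (lam L) where
  three := by omega
  inj := fun _ _ e => idx hR hL e
  adj := fun i => by
    obtain ⟨⟨z, hz⟩, -⟩ := (jump_Reg hG hb hR L hL _ _).mpr ⟨i, rfl, rfl⟩
    exact hG.adj_symm ⟨z, Reg_sub hR L hz⟩

omit hG hb hR in
theorem verts_Reg {L v : ℕ} (h : v ∈ verts (Reg G D lam L)) :
    v ∈ verts D ∨ ∃ j ≤ L, ∃ i, v = lam j i := by
  obtain ⟨p, q, h⟩ := mem_verts.mp h
  rcases mem_Reg.mp h with h | ⟨-, j, hj, i, hi⟩
  · exact Or.inl (mem_verts.mpr ⟨_, _, h⟩)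
  · right
    rcases isQ_fst hi with e | e | e | e
    · exact ⟨j, by omega, _, e⟩
    · exact ⟨j, by omega, _, e⟩
    · exact ⟨j + 1, by omega, _, e⟩
    · exact ⟨j + 1, by omega, _, e⟩

end

section

variable {G D : Finset Tri} {b M : ℕ} {lam : ℕ → ZMod b → ℕ}
variable (hG : Sph G) (hb : 4 ≤ b) (hR : Rings G b M lam D)
include hG hb hR

omit hb hR in
/-- a property of the faces at a vertex that is passed on to the next face -/
theorem link_all (v : ℕ) (P : Tri → Prop) (h0 : ∃ p q, (v, p, q) ∈ G ∧ P (v, p, q))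
    (h1 : ∀ p q r, (v, p, q) ∈ G → P (v, p, q) → (v, q, r) ∈ G → P (v, q, r)) :
    ∀ p q, (v, p, q) ∈ G → P (v, p, q) := by
  obtain ⟨p0, q0, h0, hP0⟩ := h0
  intro p q hpq
  have key : ∀ x, ReflTransGen (fun p q => (v, p, q) ∈ G) p0 x → ∀ y, (v, x, y) ∈ G →
      P (v, x, y) := by
    intro x hx
    induction hx with
    | refl =>
      intro y hy
      have := hG.uniq _ _ _ _ h0 hy
      subst this
      exact hP0
    | tail _ hxy ih =>
      intro z hz
      exact h1 _ _ _ hxy (ih _ hxy) hz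
  exact key p (hG.link v p0 p ⟨q0, h0⟩ ⟨q, hpq⟩) q hpq

theorem faces_ring {j : ℕ} (hj : j + 1 < M) (i : ZMod b) : ∀ p q, (lam (j + 1) i, p, q) ∈ G →
    (∃ i', isQ lam j i' (lam (j + 1) i, p, q)) ∨ ∃ i', isQ lam (j + 1) i' (lam (j + 1) i, p, q) := by
  have hP := hG.toPre
  refine link_all hG (lam (j + 1) i)
    (fun t => (∃ i', isQ lam j i' t) ∨ ∃ i', isQ lam (j + 1) i' t) ?_ ?_
  · obtain ⟨z, hz, hq⟩ := lf1 hR (show j + 1 < M by omega) i
    exact ⟨_, _, hz, Or.inr ⟨i, hq⟩⟩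
  · intro p q r hpq hQ hqr
    have hx : (q, lam (j + 1) i, p) ∈ G := hP.rot2 hpq
    rcases hQ with ⟨i', hQ⟩ | ⟨i', hQ⟩
    · have hQ' : isQ lam j i' (q, lam (j + 1) i, p) := isQ_rot (isQ_rot hQ)
      rcases dart hP hb hR (by omega) hx hQ' with
        ⟨h1, h2⟩ | ⟨h1, h2⟩ | ⟨h1, h2⟩ | ⟨h1, h2⟩ | ⟨w, hw, hwq, -⟩
      · exact absurd h2 (lev hR (by omega) (by omega) (by omega) _ _)
      · have e := idx hR (by omega) h2
        subst e; subst h1
        obtain ⟨z, hz, hzq⟩ := lf4 hP hR (show j < M by omega) (i' + 1)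
        have := hP.uniq _ _ _ _ hz hqr
        subst this
        exact Or.inl ⟨_, hzq⟩
      · have e := idx hR (by omega) h2
        subst e; subst h1
        obtain ⟨z, hz, hzq⟩ := lf1 hR (show j + 1 < M by omega) i
        have := hP.uniq _ _ _ _ hz hqr
        subst this
        exact Or.inr ⟨_, hzq⟩
      · exact absurd h2 (lev hR (by omega) (by omega) (by omega) _ _)
      · have := hP.uniq _ _ _ _ hw hqr
        subst this
        exact Or.inl ⟨_, hwq⟩
    · have hQ' : isQ lam (j + 1) i' (q, lam (j + 1) i, p) := isQ_rot (isQ_rot hQ)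
      rcases dart hP hb hR (by omega) hx hQ' with
        ⟨h1, h2⟩ | ⟨h1, h2⟩ | ⟨h1, h2⟩ | ⟨h1, h2⟩ | ⟨w, hw, hwq, -⟩
      · have e := idx hR (by omega) h2
        subst e; subst h1
        obtain ⟨z, hz, hzq⟩ := lf3 hP hR (show j < M by omega) i'
        have := hP.uniq _ _ _ _ hz hqr
        subst this
        exact Or.inl ⟨_, hzq⟩
      · exact absurd h2 (lev hR (by omega) (by omega) (by omega) _ _)
      · exact absurd h2 (lev hR (by omega) (by omega) (by omega) _ _)
      · have e := idx hR (by omega) h2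
        subst e; subst h1
        obtain ⟨z, hz, hzq⟩ := lf2 hP hR (show j + 1 < M by omega) (i - 1)
        rw [sub_add_cancel] at hz hzq
        have := hP.uniq _ _ _ _ hz hqr
        subst this
        exact Or.inr ⟨_, hzq⟩
      · have := hP.uniq _ _ _ _ hw hqr
        subst this
        exact Or.inr ⟨_, hwq⟩

theorem faces_zero (hM : 1 ≤ M) (i : ZMod b) : ∀ p q, (lam 0 i, p, q) ∈ G →
    (lam 0 i, p, q) ∈ D ∨ ∃ i', isQ lam 0 i' (lam 0 i, p, q) := by
  have hP := hG.toPre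
  have h0 : Reg G D lam 0 = D := by
    ext t
    rw [mem_Reg]
    simp
  have hjump := jump_Reg hP hb hR 0 (by omega)
  rw [h0] at hjump
  refine link_all hG (lam 0 i) (fun t => t ∈ D ∨ ∃ i', isQ lam 0 i' t) ?_ ?_
  · obtain ⟨z, hz, hq⟩ := lf1 hR (show 0 < M by omega) i
    exact ⟨_, _, hz, Or.inr ⟨i, hq⟩⟩
  · intro p q r hpq hQ hqr
    have hx : (q, lam 0 i, p) ∈ G := hP.rot2 hpq
    rcases hQ with hQ | ⟨i', hQ⟩
    · have hQ' : (q, lam 0 i, p) ∈ D := hR.side.rot _ _ _ (hR.side.rot _ _ _ hQ)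
      by_cases hr : (lam 0 i, q, r) ∈ D
      · exact Or.inl hr
      · obtain ⟨k, h1, h2⟩ := (hjump q (lam 0 i)).mp ⟨⟨p, hQ'⟩, r, hqr, hr⟩
        have e := idx hR (by omega) h2
        subst e; subst h1
        obtain ⟨z, hz, hzq⟩ := lf1 hR (show 0 < M by omega) i
        have := hP.uniq _ _ _ _ hz hqr
        subst this
        exact Or.inr ⟨_, hzq⟩
    · have hQ' : isQ lam 0 i' (q, lam 0 i, p) := isQ_rot (isQ_rot hQ)
      rcases dart hP hb hR (by omega) hx hQ' with
        ⟨h1, h2⟩ | ⟨h1, h2⟩ | ⟨h1, h2⟩ | ⟨h1, h2⟩ | ⟨w, hw, hwq, -⟩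
      · have e := idx hR (by omega) h2
        subst e; subst h1
        obtain ⟨⟨z, hz⟩, -⟩ := (hjump _ _).mpr ⟨i', rfl, rfl⟩
        have := hP.uniq _ _ _ _ (hR.side.sub hz) hqr
        subst this
        exact Or.inl hz
      · exact absurd h2 (lev hR (by omega) (by omega) (by omega) _ _)
      · exact absurd h2 (lev hR (by omega) (by omega) (by omega) _ _)
      · have e := idx hR (by omega) h2
        subst e; subst h1
        obtain ⟨z, hz, hzq⟩ := lf2 hP hR (show 0 < M by omega) (i - 1)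
        rw [sub_add_cancel] at hz hzq
        have := hP.uniq _ _ _ _ hz hqr
        subst this
        exact Or.inr ⟨_, hzq⟩
      · have := hP.uniq _ _ _ _ hw hqr
        subst this
        exact Or.inr ⟨_, hwq⟩

end

end Pool.Agent.H3.RCR.Quad

namespace Pool.Agent.H3.RCR

open Quad

theorem c2 : C2Stmt := by
  intro G D b M lam hG hb hR
  have hP := hG.toPre
  exact ⟨fun L hL => ⟨cyc_ring hP hb hR hL, side_Reg hP hb hR hL, fun v hv => verts_Reg hv⟩,
    fun j hj i => faces_ring hG hb hR hj i, fun hM i => faces_zero hG hb hR hM i⟩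

end Pool.Agent.H3.RCR
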