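import Pool.Agent.H3.RCR.Stmts2

/-!
# Project RCR: lemmas about stacks of rings
-/

namespace Pool.Agent.H3.RCR.Quad

open Relation

/-! ### Rotations -/

theorem rots_symm {s t : Tri} (h : t ∈ rots s) : s ∈ rots t := by
  rw [mem_rots] at h ⊢
  rcases h with rfl | rfl | rfl
  · left; rfl
  · right; right; rfl
  · right; left; rfl

theorem mem_of_rots {F : Finset Tri} (hF : RotC F) {s t : Tri} (h : t ∈ rots s) (hs : s ∈ F) :
    t ∈ F := by
  rw [mem_rots] at h
  obtain ⟨a, b, c⟩ := s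
  rcases h with rfl | rfl | rfl
  · exact hs
  · exact hF _ _ _ hs
  · exact hF _ _ _ (hF _ _ _ hs)

theorem mem_of_rots' {F : Finset Tri} (hF : RotC F) {s t : Tri} (h : t ∈ rots s) (ht : t ∈ F) :
    s ∈ F := mem_of_rots hF (rots_symm h) ht

/-! ### Small numbers modulo `b` -/

theorem cast_ne {b : ℕ} (k : ℕ) (h0 : 0 < k) (h : k < b) : (k : ZMod b) ≠ 0 := by
  intro e
  rw [ZMod.natCast_eq_zero_iff] at e
  exact absurd (Nat.le_of_dvd h0 e) (by omega)

theorem one_ne {b : ℕ} (h : 2 ≤ b) : (1 : ZMod b) ≠ 0 := by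
  have := cast_ne (b := b) 1 (by omega) (by omega)
  simpa using this

theorem two_ne {b : ℕ} (h : 3 ≤ b) : (2 : ZMod b) ≠ 0 := by
  have := cast_ne (b := b) 2 (by omega) (by omega)
  simpa using this

theorem three_ne {b : ℕ} (h : 4 ≤ b) : (3 : ZMod b) ≠ 0 := by
  have := cast_ne (b := b) 3 (by omega) (by omega)
  simpa using this

theorem ne_succ {b : ℕ} (h : 2 ≤ b) (i : ZMod b) : i ≠ i + 1 := by
  intro e
  exact one_ne h (left_eq_add.mp e)

theorem succ_ne' {b : ℕ} (h : 2 ≤ b) (i : ZMod b) : i + 1 ≠ i := fun e => ne_succ h i e.symm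

/-! ### Quadrilaterals -/

section

variable {G D : Finset Tri} {b M : ℕ} {lam : ℕ → ZMod b → ℕ}

theorem isQ_rots {j : ℕ} {i : ZMod b} {s t : Tri} (h : isQ lam j i s) (hst : t ∈ rots s) :
    isQ lam j i t := by
  have key : ∀ r : Tri, s ∈ rots r → t ∈ rots r := by
    intro r hr
    rw [mem_rots] at hr hst ⊢
    rcases hr with rfl | rfl | rfl <;> rcases hst with rfl | rfl | rfl <;> simp
  rcases h with h | h | h | h
  · exact Or.inl (key _ h)
  · exact Or.inr (Or.inl (key _ h))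
  · exact Or.inr (Or.inr (Or.inl (key _ h)))
  · exact Or.inr (Or.inr (Or.inr (key _ h)))

variable (hG : Pre G) (hb : 4 ≤ b) (hR : Rings G b M lam D)
include hG hb hR

omit hG hb in
theorem lev {j j' : ℕ} (h : j ≤ M) (h' : j' ≤ M) (hjj : j ≠ j') (i i' : ZMod b) :
    lam j i ≠ lam j' i' := fun e => hjj (hR.inj j h j' h' i i' e).1

omit hG hb in
theorem idx {j : ℕ} (h : j ≤ M) {i i' : ZMod b} (e : lam j i = lam j i') : i = i' :=
  (hR.inj j h j h i i' e).2

omit hG in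
theorem idx_ne {j : ℕ} (h : j ≤ M) (i : ZMod b) : lam j i ≠ lam j (i + 1) :=
  fun e => ne_succ (by omega) i (idx hR h e)

/-- the two possible shapes of a quadrilateral and its faces -/
theorem isQ_G {j : ℕ} {i : ZMod b} {t : Tri} (hj : j < M) (ht : t ∈ G) (hq : isQ lam j i t) :
    ((lam j i, lam j (i + 1), lam (j + 1) i) ∈ G ∧
      (lam j (i + 1), lam (j + 1) (i + 1), lam (j + 1) i) ∈ G ∧
      (t ∈ rots (lam j i, lam j (i + 1), lam (j + 1) i) ∨
        t ∈ rots (lam j (i + 1), lam (j + 1) (i + 1), lam (j + 1) i))) ∨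
    ((lam j i, lam j (i + 1), lam (j + 1) (i + 1)) ∈ G ∧
      (lam j i, lam (j + 1) (i + 1), lam (j + 1) i) ∈ G ∧
      (t ∈ rots (lam j i, lam j (i + 1), lam (j + 1) (i + 1)) ∨
        t ∈ rots (lam j i, lam (j + 1) (i + 1), lam (j + 1) i))) := by
  rcases hR.quad j hj i with ⟨h1, h2⟩ | ⟨h1, h2⟩
  · left
    refine ⟨h1, h2, ?_⟩
    rcases hq with h | h | h | h
    · exact Or.inl h
    · exact Or.inr h
    · have h3 := mem_of_rots' hG.rot h ht
      have h4 := hG.uniq _ _ _ _ h1 h3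
      exact absurd h4 (idx_ne hb hR (by omega) i)
    · have h3 := mem_of_rots' hG.rot h ht
      have h4 := hG.uniq' h2 h3
      exact absurd h4.symm (idx_ne hb hR (by omega) i)
  · right
    refine ⟨h1, h2, ?_⟩
    rcases hq with h | h | h | h
    · have h3 := mem_of_rots' hG.rot h ht
      have h4 := hG.uniq _ _ _ _ h3 h1
      exact absurd h4 (idx_ne hb hR (by omega) i)
    · have h3 := mem_of_rots' hG.rot h ht
      have h4 := hG.uniq' h3 h2
      exact absurd h4.symm (idx_ne hb hR (by omega) i)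
    · exact Or.inl h
    · exact Or.inr h

/-- the darts of a quadrilateral -/
theorem dart {j : ℕ} {i : ZMod b} {x y z : ℕ} (hj : j < M) (ht : (x, y, z) ∈ G)
    (hq : isQ lam j i (x, y, z)) :
    (x = lam j i ∧ y = lam j (i + 1)) ∨ (x = lam j (i + 1) ∧ y = lam (j + 1) (i + 1)) ∨
    (x = lam (j + 1) (i + 1) ∧ y = lam (j + 1) i) ∨ (x = lam (j + 1) i ∧ y = lam j i) ∨
    ∃ w, (y, x, w) ∈ G ∧ isQ lam j i (y, x, w) ∧
      ((∃ k l, x = lam j k ∧ y = lam (j + 1) l) ∨ ∃ k l, x = lam (j + 1) k ∧ y = lam j l) := by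
  have mk : ∀ (s : Tri) (u v w : ℕ), s ∈ G → isQ lam j i s → (u, v, w) ∈ rots s →
      (u, v, w) ∈ G ∧ isQ lam j i (u, v, w) := fun s u v w h1 h2 h3 =>
    ⟨mem_of_rots hG.rot h3 h1, isQ_rots h2 h3⟩
  rcases isQ_G hG hb hR hj ht hq with ⟨h1, h2, h | h⟩ | ⟨h1, h2, h | h⟩ <;>
    rw [mem_rots] at h <;> simp only [Prod.mk.injEq] at h <;>
    rcases h with ⟨rfl, rfl, rfl⟩ | ⟨rfl, rfl, rfl⟩ | ⟨rfl, rfl, rfl⟩
  · simp
  · have h3 := mk _ (lam (j + 1) i) (lam j (i + 1)) (lam (j + 1) (i + 1)) h2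
      (Or.inr (Or.inl (self_mem_rots _))) (by simp [mem_rots])
    exact Or.inr (Or.inr (Or.inr (Or.inr ⟨_, h3.1, h3.2, Or.inl ⟨_, _, rfl, rfl⟩⟩)))
  · simp
  · simp
  · simp
  · have h3 := mk _ (lam j (i + 1)) (lam (j + 1) i) (lam j i) h1
      (Or.inl (self_mem_rots _)) (by simp [mem_rots])
    exact Or.inr (Or.inr (Or.inr (Or.inr ⟨_, h3.1, h3.2, Or.inr ⟨_, _, rfl, rfl⟩⟩)))
  · simp
  · simp
  · have h3 := mk _ (lam j i) (lam (j + 1) (i + 1)) (lam (j + 1) i) h2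
      (Or.inr (Or.inr (Or.inr (self_mem_rots _)))) (by simp [mem_rots])
    exact Or.inr (Or.inr (Or.inr (Or.inr ⟨_, h3.1, h3.2, Or.inr ⟨_, _, rfl, rfl⟩⟩)))
  · have h3 := mk _ (lam (j + 1) (i + 1)) (lam j i) (lam j (i + 1)) h1
      (Or.inr (Or.inr (Or.inl (self_mem_rots _)))) (by simp [mem_rots])
    exact Or.inr (Or.inr (Or.inr (Or.inr ⟨_, h3.1, h3.2, Or.inl ⟨_, _, rfl, rfl⟩⟩)))
  · simp
  · simp

omit hG hb in
theorem lf1 {j : ℕ} (hj : j < M) (i : ZMod b) :
    ∃ z, (lam j i, lam j (i + 1), z) ∈ G ∧ isQ lam j i (lam j i, lam j (i + 1), z) := by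
  rcases hR.quad j hj i with ⟨h1, h2⟩ | ⟨h1, h2⟩
  · exact ⟨_, h1, Or.inl (self_mem_rots _)⟩
  · exact ⟨_, h1, Or.inr (Or.inr (Or.inl (self_mem_rots _)))⟩

omit hb in
theorem lf2 {j : ℕ} (hj : j < M) (i : ZMod b) :
    ∃ z, (lam j (i + 1), lam (j + 1) (i + 1), z) ∈ G ∧
      isQ lam j i (lam j (i + 1), lam (j + 1) (i + 1), z) := by
  rcases hR.quad j hj i with ⟨h1, h2⟩ | ⟨h1, h2⟩
  · exact ⟨_, h2, Or.inr (Or.inl (self_mem_rots _))⟩
  · exact ⟨_, hG.rot _ _ _ h1, Or.inr (Or.inr (Or.inl (by simp [mem_rots])))⟩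

omit hb in
theorem lf3 {j : ℕ} (hj : j < M) (i : ZMod b) :
    ∃ z, (lam (j + 1) (i + 1), lam (j + 1) i, z) ∈ G ∧
      isQ lam j i (lam (j + 1) (i + 1), lam (j + 1) i, z) := by
  rcases hR.quad j hj i with ⟨h1, h2⟩ | ⟨h1, h2⟩
  · exact ⟨_, hG.rot _ _ _ h2, Or.inr (Or.inl (by simp [mem_rots]))⟩
  · exact ⟨_, hG.rot _ _ _ h2, Or.inr (Or.inr (Or.inr (by simp [mem_rots])))⟩

omit hb in
theorem lf4 {j : ℕ} (hj : j < M) (i : ZMod b) :
    ∃ z, (lam (j + 1) i, lam j i, z) ∈ G ∧ isQ lam j i (lam (j + 1) i, lam j i, z) := by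
  rcases hR.quad j hj i with ⟨h1, h2⟩ | ⟨h1, h2⟩
  · exact ⟨_, hG.rot2 h1, Or.inl (by simp [mem_rots])⟩
  · exact ⟨_, hG.rot2 h2, Or.inr (Or.inr (Or.inr (by simp [mem_rots])))⟩

omit hG hb hR in
/-- the corners of a quadrilateral -/
theorem isQ_fst {j : ℕ} {i : ZMod b} {x y z : ℕ} (hq : isQ lam j i (x, y, z)) :
    x = lam j i ∨ x = lam j (i + 1) ∨ x = lam (j + 1) i ∨ x = lam (j + 1) (i + 1) := by
  rcases hq with h | h | h | h <;> rw [mem_rots] at h <;> simp only [Prod.mk.injEq] at h <;>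
    rcases h with ⟨rfl, rfl, rfl⟩ | ⟨rfl, rfl, rfl⟩ | ⟨rfl, rfl, rfl⟩ <;> simp

omit hG hb hR in
theorem isQ_rot {j : ℕ} {i : ZMod b} {x y z : ℕ} (hq : isQ lam j i (x, y, z)) :
    isQ lam j i (y, z, x) := isQ_rots hq (by simp [mem_rots])

omit hG hb hR in
theorem mem_Reg {L : ℕ} {t : Tri} :
    t ∈ Reg G D lam L ↔ t ∈ D ∨ (t ∈ G ∧ ∃ j < L, ∃ i, isQ lam j i t) := by
  simp [Reg]

omit hG hb hR in
theorem Reg_mono {L L' : ℕ} (h : L ≤ L') : Reg G D lam L ⊆ Reg G D lam L' := by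
  intro t
  rw [mem_Reg, mem_Reg]
  rintro (ht | ⟨ht, j, hj, i, hi⟩)
  · exact Or.inl ht
  · exact Or.inr ⟨ht, j, by omega, i, hi⟩

omit hG hb in
theorem Reg_sub (L : ℕ) : Reg G D lam L ⊆ G := by
  intro t
  rw [mem_Reg]
  rintro (ht | ⟨ht, -⟩)
  · exact hR.side.sub ht
  · exact ht

omit hb in
theorem Reg_rot (L : ℕ) : RotC (Reg G D lam L) := by
  intro x y z
  rw [mem_Reg, mem_Reg]
  rintro (ht | ⟨ht, j, hj, i, hi⟩)
  · exact Or.inl (hR.side.rot _ _ _ ht)
  · exact Or.inr ⟨hG.rot _ _ _ ht, j, hj, i, isQ_rot hi⟩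

omit hG hb hR in
theorem jump_conv {c : ZMod b → ℕ} {x y : ℕ} :
    (∃ i, x = c (-i) ∧ y = c (-(i + 1))) ↔ ∃ i, x = c (i + 1) ∧ y = c i := by
  constructor
  · rintro ⟨i, rfl, rfl⟩
    exact ⟨-(i + 1), by congr 1; ring, rfl⟩
  · rintro ⟨i, rfl, rfl⟩
    exact ⟨-(i + 1), by congr 1; ring, by congr 1; ring⟩

/-- the boundary of the disc bounded by the ring `L` -/
theorem jump_Reg : ∀ L ≤ M, ∀ x y,
    Jump G (Reg G D lam L) x y ↔ ∃ i, x = lam L (i + 1) ∧ y = lam L i := by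
  intro L
  induction L with
  | zero =>
    intro _ x y
    have h0 : Reg G D lam 0 = D := by
      ext t
      rw [mem_Reg]
      simp
    rw [h0, hR.side.jump x y]
    exact jump_conv
  | succ L ih =>
    intro hL x y
    have ihL := ih (by omega)
    constructor
    · rintro ⟨⟨z, hz⟩, d, hd, hd'⟩
      rcases mem_Reg.mp hz with hz' | ⟨hzG, j, hj, i, hi⟩
      · -- face in D
        have h1 : Jump G (Reg G D lam L) x y :=
          ⟨⟨z, mem_Reg.mpr (Or.inl hz')⟩, d, hd, fun h => hd' (Reg_mono (by omega) h)⟩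
        obtain ⟨i, rfl, rfl⟩ := (ihL x y).mp h1
        obtain ⟨w, hw, hwq⟩ := lf1 hR (show L < M by omega) i
        have := hG.uniq _ _ _ _ hw hd
        subst this
        exact absurd (mem_Reg.mpr (Or.inr ⟨hd, L, by omega, i, hwq⟩)) hd'
      · by_cases hjL : j < L
        · have h1 : Jump G (Reg G D lam L) x y :=
            ⟨⟨z, mem_Reg.mpr (Or.inr ⟨hzG, j, hjL, i, hi⟩)⟩, d, hd,
              fun h => hd' (Reg_mono (by omega) h)⟩
          obtain ⟨i, rfl, rfl⟩ := (ihL x y).mp h1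
          obtain ⟨w, hw, hwq⟩ := lf1 hR (show L < M by omega) i
          have := hG.uniq _ _ _ _ hw hd
          subst this
          exact absurd (mem_Reg.mpr (Or.inr ⟨hd, L, by omega, i, hwq⟩)) hd'
        · have hjL' : j = L := by omega
          subst hjL'
          rcases dart hG hb hR (by omega) hzG hi with
            ⟨rfl, rfl⟩ | ⟨rfl, rfl⟩ | ⟨rfl, rfl⟩ | ⟨rfl, rfl⟩ | ⟨w, hw, hwq, -⟩
          · -- below the ring
            obtain ⟨⟨e, he⟩, -⟩ := (ihL (lam j (i + 1)) (lam j i)).mpr ⟨i, rfl, rfl⟩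
            have := hG.uniq _ _ _ _ (Reg_sub hR _ he) hd
            subst this
            exact absurd (Reg_mono (by omega) he) hd'
          · obtain ⟨w, hw, hwq⟩ := lf4 hG hR (show j < M by omega) (i + 1)
            have := hG.uniq _ _ _ _ hw hd
            subst this
            exact absurd (mem_Reg.mpr (Or.inr ⟨hd, j, by omega, i + 1, hwq⟩)) hd'
          · exact ⟨i, rfl, rfl⟩
          · obtain ⟨w, hw, hwq⟩ := lf2 hG hR (show j < M by omega) (i - 1)
            rw [sub_add_cancel] at hw hwq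
            have := hG.uniq _ _ _ _ hw hd
            subst this
            exact absurd (mem_Reg.mpr (Or.inr ⟨hd, j, by omega, i - 1, hwq⟩)) hd'
          · have := hG.uniq _ _ _ _ hw hd
            subst this
            exact absurd (mem_Reg.mpr (Or.inr ⟨hd, j, by omega, i, hwq⟩)) hd'
    · rintro ⟨i, rfl, rfl⟩
      obtain ⟨z, hz, hzq⟩ := lf3 hG hR (show L < M by omega) i
      refine ⟨⟨z, mem_Reg.mpr (Or.inr ⟨hz, L, by omega, i, hzq⟩)⟩, ?_⟩
      obtain ⟨d, hd⟩ := hG.opp _ _ _ hz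
      refine ⟨d, hd, ?_⟩
      intro hd'
      rcases mem_Reg.mp hd' with h | ⟨-, j, hj, i', hi'⟩
      · exact hR.new (L + 1) (by omega) hL i (mem_verts.mpr ⟨_, _, h⟩)
      · have hx := isQ_fst hi'
        have hjL : j = L := by
          by_contra hne
          rcases hx with h | h | h | h
          · exact lev hR (by omega) (by omega) (by omega) _ _ h
          · exact lev hR (by omega) (by omega) (by omega) _ _ h
          · exact lev hR (by omega) (by omega) (by omega) _ _ h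
          · exact lev hR (by omega) (by omega) (by omega) _ _ h
        subst hjL
        rcases dart hG hb hR (by omega) hd hi' with
            ⟨h1, h2⟩ | ⟨h1, h2⟩ | ⟨h1, h2⟩ | ⟨h1, h2⟩ |
            ⟨w, hw, hwq, ⟨k, l, h1, h2⟩ | ⟨k, l, h1, h2⟩⟩
        · exact lev hR (by omega) (by omega) (by omega) _ _ h1
        · exact lev hR (by omega) (by omega) (by omega) _ _ h1
        · have e1 := idx hR hL h1
          have e2 := idx hR hL h2
          apply two_ne (b := b) (by omega)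
          linear_combination e2 - e1
        · exact lev hR (by omega) (by omega) (by omega) _ _ h2
        · exact lev hR (by omega) (by omega) (by omega) _ _ h1
        · exact lev hR (by omega) (by omega) (by omega) _ _ h2

end

end Pool.Agent.H3.RCR.Quad
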